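import Pool.Agent.H88.TS.Flx
import Pool.Agent.H72.ES.Final

/-! # [H88 TS BIG] Large points

PROOF. `E = 600 n^5`. `T = T₁ + T₂`, `T₁`: `¬ Flx n (G + pol c)` (`flx`). `T₂`: `fib` with `J = {p | p.1 + p.2 ≤ n - 4}`, `|J| ≥ 3` (`(0,0), (1,0), (0,1)`), `M = 80 n^3`: in a fibre,
`H72.ES.bounded_exceptions` with `G := G + pol c₀` (`totalDegree = n`; `Flx`), bound `B H ≥ 2`, pairs `(G + pol c, P_c)`, `(G + pol c - (G + pol c₀)).totalDegree ≤ n - 4`. -/

namespace Pool.Agent.H88.TS

open MvPolynomial Pool.Agent.H8.AA Pool.Agent.H88.A2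

/-- two vectors which agree at the exponents of degree `> k` -/
private theorem deg_sub {j k : ℕ} (c c' : Ix j → ℤ)
    (h : ∀ p : Ix j, ¬ (p.1.1.val + p.1.2.val ≤ k) → c' p = c p) :
    (pol c' - pol c).totalDegree ≤ k := by
  classical
  rw [MvPolynomial.totalDegree]
  apply Finset.sup_le
  intro m hm
  rw [MvPolynomial.mem_support_iff] at hm
  by_contra hlt
  apply hm
  have h2 : (m.sum fun _ e => e) = m 0 + m 1 := by
    rw [Finsupp.sum_fintype _ _ (by simp)]
    simp
  rw [h2, not_le] at hlt
  rw [MvPolynomial.coeff_sub, pol_coeff, pol_coeff]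
  unfold co
  split_ifs with h1
  · rw [h _ ?_, sub_self]
    simp only [ix]
    omega
  · simp

/-- three exponents of degree at most `1` -/
private theorem card_J {n j : ℕ} (hn : 5 ≤ n) (hj : 3 ≤ j) :
    3 ≤ (Finset.univ.filter fun p : Ix j => p.1.1.val + p.1.2.val ≤ n - 4).card := by
  classical
  have h1 : ({ix 0 0 (by omega), ix 1 0 (by omega), ix 0 1 (by omega)} : Finset (Ix j)) ⊆
      Finset.univ.filter fun p : Ix j => p.1.1.val + p.1.2.val ≤ n - 4 := by
    intro p hp
    simp only [Finset.mem_insert, Finset.mem_singleton] at hp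
    rw [Finset.mem_filter]
    refine ⟨Finset.mem_univ _, ?_⟩
    rcases hp with h | h | h <;> subst h <;> simp only [ix] <;> omega
  have h2 : ({ix 0 0 (by omega), ix 1 0 (by omega), ix 0 1 (by omega)} : Finset (Ix j)).card = 3 := by
    rw [Finset.card_eq_three]
    refine ⟨_, _, _, ?_, ?_, ?_, rfl⟩ <;> intro h <;> simp [ix] at h
  rw [← h2]
  exact Finset.card_le_card h1

theorem big (n j : ℕ) (G : MvPolynomial (Fin 2) ℤ) (h : Hy n j G) : ∃ (E : ℕ) (C : ℝ), 0 ≤ C ∧ ∀ B H : ℕ, 2 ≤ B →
    (∀ m, |G.coeff m| + 1 ≤ (B : ℤ)) → 1 ≤ H → ∀ T : Finset (Ix j → ℤ),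
      (∀ c ∈ T, (∀ p, |c p| ≤ (H : ℤ)) ∧ ∃ P : Fin 2 → ℤ, eval P (G + pol c) = 0 ∧ ((B * H : ℕ) : ℝ) ^ E < max |(P 0 : ℝ)| |(P 1 : ℝ)|) →
      (T.card : ℝ) ≤ C * (2 * (H : ℝ) + 1) ^ (Fintype.card (Ix j) - 3) := by
  classical
  have hn := h.hn
  have hj := h.hj
  have hjn := h.hjn
  refine ⟨600 * n ^ 5, (n : ℝ) + 80 * (n : ℝ) ^ 3, by positivity, ?_⟩
  intro B H hB hG hH T hT
  -- the degree of `G + pol c`
  have hhom : ∀ c : Ix j → ℤ, homogeneousComponent n (G + pol c) = homogeneousComponent n G := by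
    intro c
    rw [map_add, MvPolynomial.homogeneousComponent_eq_zero (n := n) (φ := pol c)
      (lt_of_le_of_lt (Pool.Agent.H8.AA.pol_deg c) hjn), add_zero]
  have hdeg : ∀ c : Ix j → ℤ, (G + pol c).totalDegree = n := by
    intro c
    apply le_antisymm
    · exact (MvPolynomial.totalDegree_add _ _).trans (max_le h.deg ((Pool.Agent.H8.AA.pol_deg c).trans hjn.le))
    · by_contra hlt
      rw [not_le] at hlt
      have h1 := MvPolynomial.homogeneousComponent_eq_zero (n := n) (φ := G + pol c) hlt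
      rw [hhom c] at h1
      have h2 := h.irr.ne_zero
      rw [h1] at h2
      simp at h2
  -- split
  have h1 : (T.filter fun c => ¬ Flx n (G + pol c)).card ≤ n * (2 * H + 1) ^ (Fintype.card (Ix j) - 3) := by
    apply flx n j G h H
    intro c hc
    rw [Finset.mem_filter] at hc
    exact ⟨(hT c hc.1).1, hc.2⟩
  have h2 : (T.filter fun c => Flx n (G + pol c)).card ≤
      80 * n ^ 3 * (2 * H + 1) ^ (Fintype.card (Ix j) - 3) := by
    refine (fib (Finset.univ.filter fun p : Ix j => p.1.1.val + p.1.2.val ≤ n - 4) H (80 * n ^ 3)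
      (T.filter fun c => Flx n (G + pol c)) ?_ ?_).trans ?_
    · intro c hc
      rw [Finset.mem_filter] at hc
      exact (hT c hc.1).1
    · intro c hc R hR
      rw [Finset.mem_filter] at hc
      have hP : ∀ c' : Ix j → ℤ, ∃ P : Fin 2 → ℤ, c' ∈ R → eval P (G + pol c') = 0 ∧
          ((B * H : ℕ) : ℝ) ^ (600 * n ^ 5) < max |(P 0 : ℝ)| |(P 1 : ℝ)| := by
        intro c'
        by_cases hc' : c' ∈ R
        · obtain ⟨P, hP⟩ := (hT c' (Finset.mem_filter.1 (hR c' hc').1).1).2
          exact ⟨P, fun _ => hP⟩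
        · exact ⟨0, fun h => absurd h hc'⟩
      choose P hP using hP
      have hinj : Function.Injective
          (fun c' : Ix j → ℤ => ((G + pol c' : MvPolynomial (Fin 2) ℤ), (P c' 0, P c' 1))) := by
        intro c1 c2 h12
        have h3 : G + pol c1 = G + pol c2 := congrArg Prod.fst h12
        exact Pool.Agent.H85.AA.pol_inj (add_left_cancel h3)
      rw [← Finset.card_image_of_injective R hinj]
      refine Pool.Agent.H72.ES.bounded_exceptions (n := n) (by omega) (H := B * H)
        (by nlinarith) (G + pol c) (hdeg c) ?_ ?_ _ ?_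
      · rw [hhom c]
        exact h.irr
      · exact hc.2
      · intro q hq
        rw [Finset.mem_image] at hq
        obtain ⟨c', hc', rfl⟩ := hq
        have hc2 := Finset.mem_filter.1 (hR c' hc').1
        refine ⟨?_, ?_, ?_, ?_⟩
        · have h3 : G + pol c' - (G + pol c) = pol c' - pol c := by ring
          show (G + pol c' - (G + pol c)).totalDegree ≤ n - 4
          rw [h3]
          apply deg_sub
          intro p hp
          apply (hR c' hc').2
          simpa using hp
        · intro m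
          show |(G + pol c').coeff m| ≤ _
          rw [MvPolynomial.coeff_add, pol_coeff]
          have h4 : |co c' (m 0) (m 1)| ≤ (H : ℤ) := by
            unfold co
            split_ifs with h5
            · exact (hT c' hc2.1).1 _
            · simp
          have h5 := hG m
          have h6 := abs_add_le (G.coeff m) (co c' (m 0) (m 1))
          have h7 : (0 : ℤ) ≤ ((B : ℤ) - 1) * ((H : ℤ) - 1) :=
            mul_nonneg (by omega) (by omega)
          push_cast
          nlinarith
        · have h3 := (hP c' hc').1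
          have h4 : (![P c' 0, P c' 1] : Fin 2 → ℤ) = P c' := by
            ext i
            fin_cases i <;> rfl
          show eval ![P c' 0, P c' 1] (G + pol c') = 0
          rw [h4]
          exact h3
        · have h3 := (hP c' hc').2
          show (((B * H : ℕ) : ℤ)) ^ (600 * n ^ 5) < max |P c' 0| |P c' 1|
          have h4 : (((((B * H : ℕ) : ℤ)) ^ (600 * n ^ 5) : ℤ) : ℝ) < ((max |P c' 0| |P c' 1| : ℤ) : ℝ) := by
            push_cast
            push_cast at h3
            exact h3
          exact_mod_cast h4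
    · apply Nat.mul_le_mul_left
      apply Nat.pow_le_pow_right (by omega)
      have := card_J (n := n) (j := j) hn hj
      omega
  have h3 : T.card = (T.filter fun c => Flx n (G + pol c)).card +
      (T.filter fun c => ¬ Flx n (G + pol c)).card := by
    rw [Finset.card_filter_add_card_filter_not]
  have h4 : T.card ≤ 80 * n ^ 3 * (2 * H + 1) ^ (Fintype.card (Ix j) - 3) +
      n * (2 * H + 1) ^ (Fintype.card (Ix j) - 3) := by
    rw [h3]
    exact Nat.add_le_add h2 h1
  have h5 : ((T.card : ℕ) : ℝ) ≤ ((80 * n ^ 3 * (2 * H + 1) ^ (Fintype.card (Ix j) - 3) +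
      n * (2 * H + 1) ^ (Fintype.card (Ix j) - 3) : ℕ) : ℝ) := by exact_mod_cast h4
  refine h5.trans (le_of_eq ?_)
  push_cast
  ring

end Pool.Agent.H88.TS
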