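import Pool.Agent.H88.TS.Dig

/-! # [H88 TS SMA] Points of size at most `R`: Bonferroni

`K = 2H+1`, `M = card (Ix j)`. `A_P = #{c ∈ box : g P + L_c(P) = 0}`. `|A_P - #ZA j H P| ≤ 3 W K^(M-2)` (`W ≥ 1`): `c ↦ c + g(P) e_00` maps to vectors vanishing at `P` whose coordinate `00`
runs over `[-H + g, H + g]`; each value of the coordinate `00` in the symmetric difference gives `≤ K^(M-2)` vectors (`P ≠ (0,0)`: the coefficient of `x` or `y` is determined); `P = (0,0)`: equal if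
`|g| ≤ H`, else `≤ K^(M-1) ≤ 3 W K^(M-2)`. `H15.SC.bonf` with `T = Pts R` and `pairs`; `kap_close`, `kaps_tail` (see `H15/SC/Vec.lean`, `vec_gen`). -/

namespace Pool.Agent.H88.TS

open Pool.Agent.H8.AA

private theorem zz (n : ℕ) : 0 + 0 ≤ n := by omega

private theorem ev_sum {n : ℕ} (c : Ix n → ℤ) (x y : ℤ) :
    ev n (co c) x y = ∑ i : Ix n, c i * (x ^ (i.1.1 : ℕ) * y ^ (i.1.2 : ℕ)) := by
  rw [← ev_ev, ← arr_co]
  exact Pool.Agent.H8.MP.ev_arr_sum c x y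

/-- the coordinates `v` of the box with `v + g` outside -/
private theorem card_V (H : ℕ) (g : ℤ) (V : Finset ℤ) (hV : ∀ v ∈ V, |v| ≤ (H : ℤ) ∧ (H : ℤ) < |v + g|) :
    (V.card : ℝ) ≤ |(g : ℝ)| := by
  rcases le_total 0 g with hg | hg
  · have h1 : V ⊆ Finset.Ioc ((H : ℤ) - g) H := by
      intro v hv
      obtain ⟨h2, h3⟩ := hV v hv
      rw [abs_le] at h2
      rw [Finset.mem_Ioc]
      rcases abs_cases (v + g) with ⟨e, _⟩ | ⟨e, _⟩
      · rw [e] at h3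
        constructor
        · omega
        · omega
      · rw [e] at h3
        constructor
        · omega
        · omega
    have h2 := Finset.card_le_card h1
    rw [Int.card_Ioc] at h2
    have h3 : ((V.card : ℤ)) ≤ g := by omega
    rw [abs_of_nonneg (by exact_mod_cast hg)]
    exact_mod_cast h3
  · have h1 : V ⊆ Finset.Ico (-(H : ℤ)) (-(H : ℤ) - g) := by
      intro v hv
      obtain ⟨h2, h3⟩ := hV v hv
      rw [abs_le] at h2
      rw [Finset.mem_Ico]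
      rcases abs_cases (v + g) with ⟨e, _⟩ | ⟨e, _⟩
      · rw [e] at h3
        constructor
        · omega
        · omega
      · rw [e] at h3
        constructor
        · omega
        · omega
    have h2 := Finset.card_le_card h1
    rw [Int.card_Ico] at h2
    have h3 : ((V.card : ℤ)) ≤ -g := by omega
    rw [abs_of_nonpos (by exact_mod_cast hg)]
    exact_mod_cast h3

/-- the difference of two vectors which agree outside the constant term and the index `k` -/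
private theorem diff_two {n : ℕ} (k : Ix n) (hk : k ≠ ix 0 0 (zz n)) (a b : Ix n → ℤ)
    (hab : ∀ i, ¬ (i = ix 0 0 (zz n) ∨ i = k) → a i = b i) (P : ℤ × ℤ) (N : ℤ)
    (ha : ev n (co a) P.1 P.2 = N) (hb : ev n (co b) P.1 P.2 = N) :
    (a (ix 0 0 (zz n)) - b (ix 0 0 (zz n))) +
      (a k - b k) * (P.1 ^ (k.1.1 : ℕ) * P.2 ^ (k.1.2 : ℕ)) = 0 := by
  rw [ev_sum] at ha hb
  have h1 : ∑ i : Ix n, (a i - b i) * (P.1 ^ (i.1.1 : ℕ) * P.2 ^ (i.1.2 : ℕ)) = 0 := by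
    simp only [sub_mul, Finset.sum_sub_distrib]
    rw [ha, hb, sub_self]
  have h2 : ∑ i : Ix n, (a i - b i) * (P.1 ^ (i.1.1 : ℕ) * P.2 ^ (i.1.2 : ℕ)) =
      ∑ i ∈ ({ix 0 0 (zz n), k} : Finset (Ix n)),
        (a i - b i) * (P.1 ^ (i.1.1 : ℕ) * P.2 ^ (i.1.2 : ℕ)) := by
    symm
    refine Finset.sum_subset (Finset.subset_univ _) fun i _ hi => ?_
    rw [Finset.mem_insert, Finset.mem_singleton] at hi
    rw [hab i hi, sub_self, zero_mul]
  rw [h2, Finset.sum_pair (Ne.symm hk)] at h1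
  have h3 : (P.1 ^ ((ix 0 0 (zz n) : Ix n).1.1 : ℕ) *
      P.2 ^ ((ix 0 0 (zz n) : Ix n).1.2 : ℕ)) = 1 := by
    show P.1 ^ 0 * P.2 ^ 0 = 1
    rw [pow_zero, pow_zero, one_mul]
  rw [h3, mul_one] at h1
  exact h1

private theorem out_aux {n : ℕ} (k : Ix n) (hk : k ≠ ix 0 0 (zz n)) (H : ℕ) (P : ℤ × ℤ)
    (hP : P.1 ^ (k.1.1 : ℕ) * P.2 ^ (k.1.2 : ℕ) ≠ 0) (N g : ℤ) (S : Finset (Ix n → ℤ))
    (hS : ∀ c ∈ S, (∀ i, |c i| ≤ (H : ℤ)) ∧ (H : ℤ) < |c (ix 0 0 (zz n)) + g| ∧ ev n (co c) P.1 P.2 = N) :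
    (S.card : ℝ) ≤ |(g : ℝ)| * (2 * (H : ℝ) + 1) ^ (Fintype.card (Ix n) - 2) := by
  classical
  have h := Pool.Agent.H8.NoPt.fiber_count (fun i : Ix n => i = ix 0 0 (zz n) ∨ i = k) H S
    (fun a ha => (hS a ha).1) |(g : ℝ)| (abs_nonneg _) ?_
  · have hc : Fintype.card {i : Ix n // ¬ (i = ix 0 0 (zz n) ∨ i = k)} =
        Fintype.card (Ix n) - 2 := by
      rw [Fintype.card_subtype_compl]
      congr 1
      rw [Fintype.card_subtype]
      have : (Finset.univ.filter fun i : Ix n => i = ix 0 0 (zz n) ∨ i = k) =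
          {ix 0 0 (zz n), k} := by
        ext i
        simp
      rw [this, Finset.card_pair (Ne.symm hk)]
    rw [hc] at h
    exact h
  · intro c _ T hT
    have hinj : Set.InjOn (fun a : Ix n → ℤ => a (ix 0 0 (zz n))) (T : Set (Ix n → ℤ)) := by
      intro a ha b hb hab0
      have hab0' : a (ix 0 0 (zz n)) = b (ix 0 0 (zz n)) := hab0
      have hab : ∀ i, ¬ (i = ix 0 0 (zz n) ∨ i = k) → a i = b i := fun i hi =>
        ((hT a ha).2 i hi).trans ((hT b hb).2 i hi).symm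
      have e1 := diff_two k hk a b hab P N (hS a (hT a ha).1).2.2 (hS b (hT b hb).1).2.2
      rw [hab0', sub_self, zero_add] at e1
      have e4 : a k = b k := by
        rcases mul_eq_zero.1 e1 with e | e
        · exact sub_eq_zero.1 e
        · exact absurd e hP
      funext i
      by_cases hi : i = ix 0 0 (zz n) ∨ i = k
      · rcases hi with rfl | rfl
        · exact hab0'
        · exact e4
      · exact hab i hi
    have h1 := Finset.card_image_of_injOn hinj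
    rw [← h1]
    refine card_V H g _ fun v hv => ?_
    obtain ⟨a, ha, rfl⟩ := Finset.mem_image.1 hv
    have h2 := hS a (hT a ha).1
    exact ⟨h2.1 _, h2.2.1⟩

private theorem one_aux {n : ℕ} (H : ℕ) (N : ℤ) (S : Finset (Ix n → ℤ))
    (hS : ∀ c ∈ S, (∀ i, |c i| ≤ (H : ℤ)) ∧ c (ix 0 0 (zz n)) = N) :
    (S.card : ℝ) ≤ (2 * (H : ℝ) + 1) ^ (Fintype.card (Ix n) - 1) := by
  classical
  have h := Pool.Agent.H8.NoPt.fiber_count (fun i : Ix n => i = ix 0 0 (zz n)) H S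
    (fun a ha => (hS a ha).1) 1 zero_le_one ?_
  · have hc : Fintype.card {i : Ix n // ¬ (i = ix 0 0 (zz n))} = Fintype.card (Ix n) - 1 := by
      rw [Fintype.card_subtype_compl, Fintype.card_subtype_eq]
    rw [hc, one_mul] at h
    exact h
  · intro c _ T hT
    have h1 : T.card ≤ 1 := by
      rw [Finset.card_le_one]
      intro a ha b hb
      funext i
      by_cases hi : i = ix 0 0 (zz n)
      · rw [hi, (hS a (hT a ha).1).2, (hS b (hT b hb).1).2]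
      · exact ((hT a ha).2 i hi).trans ((hT b hb).2 i hi).symm
    exact_mod_cast h1

private theorem two_le_card (n : ℕ) (hn : 1 ≤ n) : 2 ≤ Fintype.card (Ix n) := by
  have h : 1 < Fintype.card (Ix n) := by
    rw [Fintype.one_lt_card_iff]
    refine ⟨ix 0 0 (zz n), ix 1 0 (by omega), ?_⟩
    intro h
    have h3 := congrArg (fun i : Ix n => (i.1.1 : ℕ)) h
    have h4 : (0 : ℕ) = 1 := h3
    omega
  omega

private theorem ev_zero {n : ℕ} (c : Ix n → ℤ) : ev n (co c) 0 0 = c (ix 0 0 (zz n)) := by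
  rw [ev_sum, Finset.sum_eq_single (ix 0 0 (zz n))]
  · show c (ix 0 0 (zz n)) * (0 ^ 0 * 0 ^ 0) = _
    rw [pow_zero, one_mul, mul_one]
  · intro i _ hi
    have h : (i.1.1 : ℕ) ≠ 0 ∨ (i.1.2 : ℕ) ≠ 0 := by
      by_contra hh
      rw [not_or, not_not, not_not] at hh
      refine hi (Subtype.ext (Prod.ext (Fin.ext ?_) (Fin.ext ?_)))
      · exact hh.1
      · exact hh.2
    rcases h with h | h
    · rw [zero_pow h, zero_mul, mul_zero]
    · rw [zero_pow h, mul_zero, mul_zero]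
  · intro hh
    exact absurd (Finset.mem_univ _) hh

/-- vectors with a given value whose shift leaves the box -/
private theorem out (n : ℕ) (hn : 1 ≤ n) (H : ℕ) (P : ℤ × ℤ) (N g : ℤ) (hN : N = 0 ∨ N = -g) (S : Finset (Ix n → ℤ))
    (hS : ∀ c ∈ S, (∀ i, |c i| ≤ (H : ℤ)) ∧ (H : ℤ) < |c (ix 0 0 (zz n)) + g| ∧ ev n (co c) P.1 P.2 = N) :
    (S.card : ℝ) ≤ 2 * |(g : ℝ)| * (2 * (H : ℝ) + 1) ^ (Fintype.card (Ix n) - 2) := by
  have hK : (0 : ℝ) ≤ |(g : ℝ)| * (2 * (H : ℝ) + 1) ^ (Fintype.card (Ix n) - 2) := by positivity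
  have e2 : 2 * |(g : ℝ)| * (2 * (H : ℝ) + 1) ^ (Fintype.card (Ix n) - 2) =
      2 * (|(g : ℝ)| * (2 * (H : ℝ) + 1) ^ (Fintype.card (Ix n) - 2)) := by ring
  by_cases h1 : P.1 = 0
  · by_cases h2 : P.2 = 0
    · rcases S.eq_empty_or_nonempty with hS0 | ⟨c0, hc0⟩
      · rw [hS0, Finset.card_empty, Nat.cast_zero]
        positivity
      · have h3 := hS c0 hc0
        rw [h1, h2, ev_zero] at h3
        obtain ⟨_, h4, h5⟩ := h3
        rw [h5] at h4
        rcases hN with h6 | h6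
        · rw [h6, zero_add] at h4
          have h7 := one_aux H N S fun c hc => by
            have h8 := hS c hc
            rw [h1, h2, ev_zero] at h8
            exact ⟨h8.1, h8.2.2⟩
          refine h7.trans ?_
          have hM := two_le_card n hn
          obtain ⟨m, hm⟩ : ∃ m, Fintype.card (Ix n) = m + 2 := ⟨_, (Nat.sub_add_cancel hM).symm⟩
          rw [hm, Nat.add_sub_cancel, show m + 2 - 1 = m + 1 by omega, pow_succ, mul_comm]
          refine mul_le_mul_of_nonneg_right ?_ (by positivity)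
          have h8 : (H : ℤ) + 1 ≤ |g| := h4
          have h9 : (H : ℝ) + 1 ≤ |(g : ℝ)| := by exact_mod_cast h8
          linarith
        · rw [h6, neg_add_cancel, abs_zero] at h4
          exfalso
          omega
    · rw [e2]
      have h3 := out_aux (ix 0 1 (by omega) : Ix n) (fun h => by
        have h3 := congrArg (fun i : Ix n => (i.1.2 : ℕ)) h
        have h4 : (1 : ℕ) = 0 := h3
        omega) H P (by
          show P.1 ^ 0 * P.2 ^ 1 ≠ 0
          rw [pow_zero, one_mul, pow_one]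
          exact h2) N g S hS
      linarith
  · rw [e2]
    have h3 := out_aux (ix 1 0 (by omega) : Ix n) (fun h => by
      have h3 := congrArg (fun i : Ix n => (i.1.1 : ℕ)) h
      have h4 : (1 : ℕ) = 0 := h3
      omega) H P (by
        show P.1 ^ 1 * P.2 ^ 0 ≠ 0
        rw [pow_zero, mul_one, pow_one]
        exact h1) N g S hS
    linarith

/-- shift of the constant term -/
private def sh {n : ℕ} (g : ℤ) (c : Ix n → ℤ) : Ix n → ℤ := fun i => if i = ix 0 0 (zz n) then c i + g else c i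

private theorem sh_zero {n : ℕ} (g : ℤ) (c : Ix n → ℤ) : sh g c (ix 0 0 (zz n)) = c (ix 0 0 (zz n)) + g := if_pos rfl

private theorem sh_ne {n : ℕ} (g : ℤ) (c : Ix n → ℤ) (i : Ix n) (hi : i ≠ ix 0 0 (zz n)) : sh g c i = c i := if_neg hi

private theorem sh_ev {n : ℕ} (g : ℤ) (c : Ix n → ℤ) (x y : ℤ) : ev n (co (sh g c)) x y = ev n (co c) x y + g := by
  rw [ev_sum, ev_sum]
  have h1 : ∀ i : Ix n, sh g c i * (x ^ (i.1.1 : ℕ) * y ^ (i.1.2 : ℕ)) =
      c i * (x ^ (i.1.1 : ℕ) * y ^ (i.1.2 : ℕ)) + (if i = ix 0 0 (zz n) then g else 0) := by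
    intro i
    by_cases hi : i = ix 0 0 (zz n)
    · rw [if_pos hi, hi, sh_zero]
      show (c (ix 0 0 (zz n)) + g) * (x ^ 0 * y ^ 0) = c (ix 0 0 (zz n)) * (x ^ 0 * y ^ 0) + g
      rw [pow_zero, pow_zero]
      ring
    · rw [if_neg hi, sh_ne g c i hi, add_zero]
  rw [Finset.sum_congr rfl fun i _ => h1 i, Finset.sum_add_distrib, Finset.sum_ite_eq' Finset.univ (ix 0 0 (zz n)) fun _ => g,
    if_pos (Finset.mem_univ _)]

private theorem sh_inj {n : ℕ} (g : ℤ) : Function.Injective (sh (n := n) g) := by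
  intro a b h
  funext i
  have h1 := congrFun h i
  by_cases hi : i = ix 0 0 (zz n)
  · rw [hi, sh_zero, sh_zero] at h1
    rw [hi]
    exact add_right_cancel h1
  · rwa [sh_ne g a i hi, sh_ne g b i hi] at h1

private theorem shift_le (n : ℕ) (hn : 1 ≤ n) (H : ℕ) (P : ℤ × ℤ) (N g : ℤ) (hN : N = 0 ∨ N = -g) (A B : Finset (Ix n → ℤ))
    (hA : ∀ c ∈ A, c ∈ box n H ∧ ev n (co c) P.1 P.2 = N)
    (hB : ∀ c, c ∈ box n H → ev n (co c) P.1 P.2 = N + g → c ∈ B) :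
    (A.card : ℝ) ≤ B.card + 2 * |(g : ℝ)| * (2 * (H : ℝ) + 1) ^ (Fintype.card (Ix n) - 2) := by
  classical
  obtain ⟨G, hG⟩ : ∃ G : Finset (Ix n → ℤ), G = A.filter fun c => ¬ (H : ℤ) < |c (ix 0 0 (zz n)) + g| := ⟨_, rfl⟩
  obtain ⟨D, hD⟩ : ∃ D : Finset (Ix n → ℤ), D = A.filter fun c => (H : ℤ) < |c (ix 0 0 (zz n)) + g| := ⟨_, rfl⟩
  have h1 : D.card + G.card = A.card := by
    rw [hD, hG]
    exact Finset.card_filter_add_card_filter_not _
  have h2 : G.card ≤ B.card := by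
    rw [← Finset.card_image_of_injective G (sh_inj g)]
    refine Finset.card_le_card fun d hd => ?_
    obtain ⟨c, hc, rfl⟩ := Finset.mem_image.1 hd
    rw [hG, Finset.mem_filter, not_lt] at hc
    obtain ⟨h3, h4⟩ := hA c hc.1
    refine hB _ ?_ ?_
    · rw [mem_box] at h3 ⊢
      intro i
      by_cases hi : i = ix 0 0 (zz n)
      · rw [hi, sh_zero]
        exact hc.2
      · rw [sh_ne g c i hi]
        exact h3 i
    · rw [sh_ev, h4]
  have h3 := out n hn H P N g hN D fun c hc => by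
    rw [hD, Finset.mem_filter] at hc
    obtain ⟨h3, h4⟩ := hA c hc.1
    exact ⟨mem_box.1 h3, hc.2, h4⟩
  have h4 : (A.card : ℝ) = (D.card : ℝ) + (G.card : ℝ) := by exact_mod_cast h1.symm
  have h5 : (G.card : ℝ) ≤ (B.card : ℝ) := by exact_mod_cast h2
  rw [h4]
  linarith

private theorem mem_ZA {n H : ℕ} {P : ℤ × ℤ} {c : Ix n → ℤ} :
    c ∈ Pool.Agent.H15.SC.ZA n H P ↔ c ∈ box n H ∧ ev n (co c) P.1 P.2 = 0 := by
  unfold Pool.Agent.H15.SC.ZA
  rw [Finset.mem_filter, ev_ev, arr_co]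
  exact Iff.rfl

private theorem shift (n : ℕ) (hn : 1 ≤ n) (H : ℕ) (P : ℤ × ℤ) (g : ℤ) (A : Finset (Ix n → ℤ))
    (hA : ∀ c, c ∈ A ↔ c ∈ box n H ∧ g + ev n (co c) P.1 P.2 = 0) :
    |(A.card : ℝ) - (Pool.Agent.H15.SC.ZA n H P).card| ≤
      2 * |(g : ℝ)| * (2 * (H : ℝ) + 1) ^ (Fintype.card (Ix n) - 2) := by
  have h1 := shift_le n hn H P (-g) g (Or.inr rfl) A (Pool.Agent.H15.SC.ZA n H P)
    (fun c hc => by
      obtain ⟨h2, h3⟩ := (hA c).1 hc
      exact ⟨h2, by omega⟩)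
    (fun c hc he => mem_ZA.2 ⟨hc, by omega⟩)
  have h2 := shift_le n hn H P 0 (-g) (Or.inl rfl) (Pool.Agent.H15.SC.ZA n H P) A
    (fun c hc => mem_ZA.1 hc)
    (fun c hc he => (hA c).2 ⟨hc, by omega⟩)
  rw [Int.cast_neg, abs_neg] at h2
  rw [abs_le]
  constructor
  · linarith
  · linarith

open Classical in
private theorem bonf_w {α β : Type*} [DecidableEq α] (W : Finset α) (T : Finset β) (z : α → β → Prop)
    (r : ℝ) (hr0 : 0 ≤ r)
    (hr : ∀ P ∈ T, ∀ Q ∈ T, P ≠ Q → ∀ V : Finset α, (∀ a ∈ V, a ∈ W ∧ z a P ∧ z a Q) → (V.card : ℝ) ≤ r)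
    (U U2 : Finset α) (A : β → Finset α) (hU : ∀ a, a ∈ U ↔ a ∈ W ∧ ∃ P ∈ T, z a P)
    (hU2 : ∀ a, a ∈ U2 ↔ a ∈ W ∧ ∃ P ∈ T, ∃ Q ∈ T, P ≠ Q ∧ z a P ∧ z a Q)
    (hA : ∀ P a, a ∈ A P ↔ a ∈ W ∧ z a P) :
    |(U.card : ℝ) - ∑ P ∈ T, ((A P).card : ℝ)| ≤ (T.card : ℝ) ^ 2 * r ∧
      (U2.card : ℝ) ≤ (T.card : ℝ) ^ 2 * r := by
  have h := Pool.Agent.H15.SC.bonf W T z r hr0 fun P hP Q hQ hPQ =>
    hr P hP Q hQ hPQ _ fun a ha => Finset.mem_filter.1 ha
  have e1 : U = W.filter fun a => ∃ P ∈ T, z a P := by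
    ext a
    rw [hU, Finset.mem_filter]
  have e2 : U2 = W.filter fun a => ∃ P ∈ T, ∃ Q ∈ T, P ≠ Q ∧ z a P ∧ z a Q := by
    ext a
    rw [hU2, Finset.mem_filter]
  have e3 : ∀ P, A P = W.filter fun a => z a P := by
    intro P
    ext a
    rw [hA, Finset.mem_filter]
  rw [e1, e2]
  simp only [e3]
  exact h

private theorem four {a b c d e x y w v : ℝ} (h1 : |a - b| ≤ x) (h2 : |b - c| ≤ y)
    (h3 : |c - d| ≤ w) (h4 : |d - e| ≤ v) : |a - e| ≤ x + y + w + v := by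
  have j1 := abs_sub_le a b e
  have j2 := abs_sub_le b c e
  have j3 := abs_sub_le c d e
  linarith

private theorem cardT {R : ℕ} (hR : 1 ≤ R) : ((Pool.Agent.H15.SC.Pts R).card : ℝ) ≤ 9 * (R : ℝ) ^ 2 := by
  have h1 : (1 : ℝ) ≤ R := by exact_mod_cast hR
  rw [Pool.Agent.H15.SC.card_Pts]
  push_cast
  nlinarith

open Classical in
theorem sma (j : ℕ) (hj : 3 ≤ j) : ∃ C : ℝ, 0 ≤ C ∧ ∀ (H R : ℕ), 1 ≤ H → 1 ≤ R → ∀ (W : ℝ) (g : ℤ × ℤ → ℤ), 1 ≤ W →
    (∀ P ∈ Pool.Agent.H15.SC.Pts R, |(g P : ℝ)| ≤ W) →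
    |(((box j H).filter fun c => ∃ P ∈ Pool.Agent.H15.SC.Pts R, g P + ev j (co c) P.1 P.2 = 0).card : ℝ) -
      Pool.Agent.H15.SC.kaps j * (2 * (H : ℝ) + 1) ^ (Fintype.card (Ix j) - 1)| ≤
      C * (2 * (H : ℝ) + 1) ^ (Fintype.card (Ix j) - 1) * ((R : ℝ) ^ 4 * W / (2 * (H : ℝ) + 1) + 1 / (R : ℝ) ^ (j - 2)) ∧
    (((box j H).filter fun c => ∃ P ∈ Pool.Agent.H15.SC.Pts R, ∃ Q ∈ Pool.Agent.H15.SC.Pts R, P ≠ Q ∧
      g P + ev j (co c) P.1 P.2 = 0 ∧ g Q + ev j (co c) Q.1 Q.2 = 0).card : ℝ) ≤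
      C * (2 * (H : ℝ) + 1) ^ (Fintype.card (Ix j) - 1) * ((R : ℝ) ^ 4 / (2 * (H : ℝ) + 1)) := by
  obtain ⟨Cp, hCp, hp⟩ := pairs j (by omega)
  have hM2 := two_le_card j (by omega)
  obtain ⟨M, hM⟩ : ∃ M : ℕ, M = Fintype.card (Ix j) := ⟨_, rfl⟩
  have hC0 : (0 : ℝ) ≤ 81 * Cp + 18 + 9 * (4 * M + 6) + 16 * 2 ^ j := by positivity
  refine ⟨81 * Cp + 18 + 9 * (4 * M + 6) + 16 * 2 ^ j, hC0, ?_⟩
  intro H R hH hR W g hW hg
  have hR1 : (1 : ℝ) ≤ R := by exact_mod_cast hR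
  have hR2 : (1 : ℝ) ≤ (R : ℝ) ^ 2 := one_le_pow₀ hR1
  have hR4 : (R : ℝ) ^ 4 = (R : ℝ) ^ 2 * (R : ℝ) ^ 2 := by ring
  obtain ⟨K, hK⟩ : ∃ K : ℝ, K = 2 * (H : ℝ) + 1 := ⟨_, rfl⟩
  have hK0 : 0 < K := by rw [hK]; positivity
  obtain ⟨Km, hKm⟩ : ∃ Km : ℝ, Km = K ^ (M - 1) := ⟨_, rfl⟩
  have hKm0 : 0 < Km := by rw [hKm]; positivity
  have hK2 : K ^ (M - 2) = Km / K := by
    rw [hKm, eq_div_iff hK0.ne', ← pow_succ]
    congr 1
    omega
  obtain ⟨T, hT⟩ : ∃ T : Finset (ℤ × ℤ), T = Pool.Agent.H15.SC.Pts R := ⟨_, rfl⟩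
  have hTc := cardT hR
  rw [← hT] at hTc
  have hTc0 : (0 : ℝ) ≤ (T.card : ℝ) := Nat.cast_nonneg _
  obtain ⟨z, hz⟩ : ∃ z : (Ix j → ℤ) → ℤ × ℤ → Prop,
      ∀ a P, z a P ↔ g P + ev j (co a) P.1 P.2 = 0 := ⟨_, fun _ _ => Iff.rfl⟩
  obtain ⟨U, hU⟩ : ∃ U : Finset (Ix j → ℤ),
    U = (box j H).filter fun c => ∃ P ∈ Pool.Agent.H15.SC.Pts R, g P + ev j (co c) P.1 P.2 = 0 := ⟨_, rfl⟩
  obtain ⟨U2, hU2⟩ : ∃ U2 : Finset (Ix j → ℤ),
    U2 = (box j H).filter fun c => ∃ P ∈ Pool.Agent.H15.SC.Pts R, ∃ Q ∈ Pool.Agent.H15.SC.Pts R, P ≠ Q ∧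
      g P + ev j (co c) P.1 P.2 = 0 ∧ g Q + ev j (co c) Q.1 Q.2 = 0 := ⟨_, rfl⟩
  obtain ⟨A, hA⟩ : ∃ A : ℤ × ℤ → Finset (Ix j → ℤ), ∀ P a, a ∈ A P ↔ a ∈ box j H ∧ z a P :=
    ⟨fun P => (box j H).filter fun a => z a P, fun P a => Finset.mem_filter⟩
  rw [← hU, ← hU2, ← hK, ← hM, ← hKm]
  have hr0 : 0 ≤ Cp * (Km / K) := by positivity
  obtain ⟨hb1, hb2⟩ := bonf_w (box j H) T z (Cp * (Km / K)) hr0
    (fun P _ Q _ hPQ V hV => by
      have h1 := hp H hH P Q (-g P) (-g Q) hPQ V fun c hc => by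
        obtain ⟨h2, h3, h4⟩ := hV c hc
        rw [hz] at h3 h4
        exact ⟨mem_box.1 h2, by omega, by omega⟩
      rw [← hK, ← hM, hK2] at h1
      exact h1) U U2 A
    (fun a => by
      rw [hU, Finset.mem_filter, hT]
      simp only [hz])
    (fun a => by
      rw [hU2, Finset.mem_filter, hT]
      simp only [hz]) hA
  have hTT : (T.card : ℝ) ^ 2 * (Cp * (Km / K)) ≤ 81 * Cp * Km * ((R : ℝ) ^ 4 / K) := by
    have h1 : (T.card : ℝ) ^ 2 ≤ (9 * (R : ℝ) ^ 2) ^ 2 := pow_le_pow_left₀ hTc0 hTc 2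
    calc (T.card : ℝ) ^ 2 * (Cp * (Km / K)) ≤ (9 * (R : ℝ) ^ 2) ^ 2 * (Cp * (Km / K)) :=
          mul_le_mul_of_nonneg_right h1 hr0
      _ = 81 * Cp * Km * ((R : ℝ) ^ 4 / K) := by ring
  have hRK : 0 ≤ (R : ℝ) ^ 4 / K := by positivity
  have hRW : (R : ℝ) ^ 4 / K ≤ (R : ℝ) ^ 4 * W / K := by
    refine div_le_div_of_nonneg_right ?_ hK0.le
    exact le_mul_of_one_le_right (by positivity) hW
  have hRj : (0 : ℝ) ≤ 1 / (R : ℝ) ^ (j - 2) := by positivity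
  constructor
  · have h2 : |∑ P ∈ T, ((A P).card : ℝ) - ∑ P ∈ T, ((Pool.Agent.H15.SC.ZA j H P).card : ℝ)| ≤
        18 * Km * ((R : ℝ) ^ 4 * W / K) := by
      rw [← Finset.sum_sub_distrib]
      refine (Finset.abs_sum_le_sum_abs _ _).trans ?_
      have h3 : ∀ P ∈ T, |((A P).card : ℝ) - ((Pool.Agent.H15.SC.ZA j H P).card : ℝ)| ≤ 2 * W * (Km / K) := by
        intro P hP
        have h4 := shift j (by omega) H P (g P) (A P) fun c => by rw [hA, hz]
        rw [← hK, ← hM, hK2] at h4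
        refine h4.trans (mul_le_mul_of_nonneg_right ?_ (by positivity))
        have h5 := hg P (hT ▸ hP)
        linarith
      refine (Finset.sum_le_sum h3).trans ?_
      rw [Finset.sum_const, nsmul_eq_mul]
      have h5 : (0 : ℝ) ≤ 2 * W * (Km / K) := by positivity
      calc (T.card : ℝ) * (2 * W * (Km / K)) ≤ (9 * (R : ℝ) ^ 2) * (2 * W * (Km / K)) :=
            mul_le_mul_of_nonneg_right hTc h5
        _ = 18 * Km * ((R : ℝ) ^ 2 * W / K) := by ring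
        _ ≤ 18 * Km * ((R : ℝ) ^ 4 * W / K) := by
            refine mul_le_mul_of_nonneg_left ?_ (by positivity)
            refine div_le_div_of_nonneg_right ?_ hK0.le
            refine mul_le_mul_of_nonneg_right ?_ (by linarith)
            rw [hR4]
            exact le_mul_of_one_le_right (by positivity) hR2
    have h3 : |∑ P ∈ T, ((Pool.Agent.H15.SC.ZA j H P).card : ℝ) - (∑ P ∈ T, Pool.Agent.H15.SC.kap j P) * Km| ≤
        9 * (4 * M + 6) * Km * ((R : ℝ) ^ 4 * W / K) := by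
      rw [Finset.sum_mul, ← Finset.sum_sub_distrib]
      refine (Finset.abs_sum_le_sum_abs _ _).trans ?_
      have h4 : ∀ P ∈ T, |((Pool.Agent.H15.SC.ZA j H P).card : ℝ) - Pool.Agent.H15.SC.kap j P * Km| ≤
          (4 * M + 6) / K * Km := by
        intro P _
        have h5 := Pool.Agent.H15.SC.kap_close j (by omega) P H hH
        have h6 : ((Pool.Agent.H15.SC.ZA j H P).card : ℝ) = Pool.Agent.H15.SC.pr j H P * Km := by
          unfold Pool.Agent.H15.SC.pr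
          rw [hKm, hK, hM]
          exact (div_mul_cancel₀ _ (by positivity)).symm
        rw [h6, ← sub_mul, abs_mul, abs_of_pos hKm0]
        refine mul_le_mul_of_nonneg_right ?_ hKm0.le
        rw [hK, hM]
        exact h5
      refine (Finset.sum_le_sum h4).trans ?_
      rw [Finset.sum_const, nsmul_eq_mul]
      have h5 : (0 : ℝ) ≤ (4 * M + 6) / K * Km := by positivity
      calc (T.card : ℝ) * ((4 * M + 6) / K * Km) ≤ (9 * (R : ℝ) ^ 2) * ((4 * M + 6) / K * Km) :=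
            mul_le_mul_of_nonneg_right hTc h5
        _ = 9 * (4 * M + 6) * Km * ((R : ℝ) ^ 2 / K) := by ring
        _ ≤ 9 * (4 * M + 6) * Km * ((R : ℝ) ^ 4 * W / K) := by
            refine mul_le_mul_of_nonneg_left ?_ (by positivity)
            refine le_trans (div_le_div_of_nonneg_right ?_ hK0.le) hRW
            rw [hR4]
            exact le_mul_of_one_le_right (by positivity) hR2
    have h4 : |(∑ P ∈ T, Pool.Agent.H15.SC.kap j P) * Km - Pool.Agent.H15.SC.kaps j * Km| ≤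
        16 * 2 ^ j * Km * (1 / (R : ℝ) ^ (j - 2)) := by
      obtain ⟨h5, h6⟩ := Pool.Agent.H15.SC.kaps_tail j hj R hR
      rw [← hT] at h5 h6
      rw [← sub_mul, abs_mul, abs_of_pos hKm0]
      have h7 : |∑ P ∈ T, Pool.Agent.H15.SC.kap j P - Pool.Agent.H15.SC.kaps j| ≤ 16 * 2 ^ j / (R : ℝ) ^ (j - 2) := by
        rw [abs_le]
        constructor
        · linarith
        · have : (0 : ℝ) ≤ 16 * 2 ^ j / (R : ℝ) ^ (j - 2) := by positivity
          linarith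
      refine (mul_le_mul_of_nonneg_right h7 hKm0.le).trans (le_of_eq ?_)
      ring
    refine (four (hb1.trans hTT) h2 h3 h4).trans ?_
    have h5 : 81 * Cp * Km * ((R : ℝ) ^ 4 / K) ≤ 81 * Cp * Km * ((R : ℝ) ^ 4 * W / K) :=
      mul_le_mul_of_nonneg_left hRW (by positivity)
    have h6 : (81 * Cp + 18 + 9 * (4 * M + 6) + 16 * 2 ^ j) * Km * ((R : ℝ) ^ 4 * W / K + 1 / (R : ℝ) ^ (j - 2)) =
        81 * Cp * Km * ((R : ℝ) ^ 4 * W / K) + 18 * Km * ((R : ℝ) ^ 4 * W / K) +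
          9 * (4 * M + 6) * Km * ((R : ℝ) ^ 4 * W / K) + 16 * 2 ^ j * Km * (1 / (R : ℝ) ^ (j - 2)) +
          (16 * 2 ^ j * Km * ((R : ℝ) ^ 4 * W / K) + (81 * Cp + 18 + 9 * (4 * M + 6)) * Km * (1 / (R : ℝ) ^ (j - 2))) := by
      ring
    have h7 : 0 ≤ 16 * 2 ^ j * Km * ((R : ℝ) ^ 4 * W / K) +
        (81 * Cp + 18 + 9 * (4 * M + 6)) * Km * (1 / (R : ℝ) ^ (j - 2)) := by positivity
    rw [h6]
    linarith
  · refine (hb2.trans hTT).trans ?_
    refine mul_le_mul_of_nonneg_right ?_ hRK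
    refine mul_le_mul_of_nonneg_right ?_ hKm0.le
    have : (0 : ℝ) ≤ 18 + 9 * (4 * (M : ℝ) + 6) + 16 * 2 ^ j := by positivity
    linarith

end Pool.Agent.H88.TS
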