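import Mathlib

/-! # [H88 TS CNT] Few exponents of small weight (Chebyshev)

`m ≥ D/η²`, all `d_j ≥ 1`: `∑_e (∑_j (e_j/d_j - 1/2))² = ∏ (d_j+1) ∑_j Var_j`, `Var_j = (1/(d_j+1)) ∑_{e ≤ d_j} (e/d_j - 1/2)² ≤ 1/4`; every counted `e` has
`(∑_j (e_j/d_j - 1/2))² ≥ (η m)²`. So `# ≤ ∏ (d_j+1) (m/4)/(η m)²`. -/

namespace Pool.Agent.H88.TS

open Finset

private noncomputable def xx (d t : ℕ) : ℝ := (t : ℝ) / (d : ℝ) - 1 / 2

private theorem sum_id (n : ℕ) : ∑ t ∈ range n, (t : ℝ) = n * (n - 1) / 2 := by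
  induction n with
  | zero => simp
  | succ n ih =>
    rw [sum_range_succ, ih]
    push_cast
    ring

private theorem sum_xx {d : ℕ} (hd : 1 ≤ d) : ∑ t ∈ range (d + 1), xx d t = 0 := by
  have hd0 : (d : ℝ) ≠ 0 := by
    have : (0 : ℝ) < d := by exact_mod_cast hd
    exact this.ne'
  unfold xx
  rw [sum_sub_distrib, ← sum_div, sum_id, sum_const, card_range, nsmul_eq_mul]
  push_cast
  field_simp
  ring

private theorem sq_xx {d t : ℕ} (hd : 1 ≤ d) (ht : t ∈ range (d + 1)) : xx d t * xx d t ≤ 1 / 4 := by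
  have hd0 : (0 : ℝ) < d := by exact_mod_cast hd
  have ht' : (t : ℝ) ≤ d := by
    have := mem_range.1 ht
    exact_mod_cast (by omega : t ≤ d)
  have h0 : 0 ≤ (t : ℝ) / d := div_nonneg (Nat.cast_nonneg t) hd0.le
  have h1 : (t : ℝ) / d ≤ 1 := (div_le_one hd0).2 ht'
  unfold xx
  nlinarith

private theorem cross {m : ℕ} (d : Fin m → ℕ) (hd : ∀ j, 1 ≤ d j) (j k : Fin m) :
    ∑ e ∈ Fintype.piFinset (fun i => range (d i + 1)), xx (d j) (e j) * xx (d k) (e k) ≤
      if j = k then 1 / 4 * ∏ i, ((d i : ℝ) + 1) else 0 := by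
  classical
  have h1 : ∀ e : Fin m → ℕ, xx (d j) (e j) * xx (d k) (e k) =
      ∏ i, ((if i = j then xx (d i) (e i) else 1) * (if i = k then xx (d i) (e i) else 1)) := by
    intro e
    rw [prod_mul_distrib, prod_ite_eq' univ j, prod_ite_eq' univ k, if_pos (mem_univ _),
      if_pos (mem_univ _)]
  simp only [h1]
  rw [← prod_univ_sum (fun i => range (d i + 1)) (fun i t =>
    (if i = j then xx (d i) t else 1) * (if i = k then xx (d i) t else 1))]
  by_cases hjk : j = k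
  · subst hjk
    rw [if_pos rfl]
    have h2 : (1 / 4 : ℝ) * ∏ i, ((d i : ℝ) + 1) =
        ∏ i, ((if i = j then (1 / 4 : ℝ) else 1) * ((d i : ℝ) + 1)) := by
      rw [prod_mul_distrib, prod_ite_eq' univ j, if_pos (mem_univ _)]
    rw [h2]
    refine prod_le_prod (fun i _ => sum_nonneg fun t _ => ?_) fun i _ => ?_
    · by_cases hi : i = j
      · simp only [if_pos hi]
        exact mul_self_nonneg _
      · simp only [if_neg hi]
        norm_num
    · by_cases hi : i = j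
      · simp only [if_pos hi]
        calc ∑ t ∈ range (d i + 1), xx (d i) t * xx (d i) t
            ≤ ∑ t ∈ range (d i + 1), (1 / 4 : ℝ) := sum_le_sum fun t ht => sq_xx (hd i) ht
          _ = 1 / 4 * ((d i : ℝ) + 1) := by
            rw [sum_const, card_range, nsmul_eq_mul]
            push_cast
            ring
      · simp only [if_neg hi]
        rw [sum_const, card_range, nsmul_eq_mul]
        push_cast
        linarith
  · rw [if_neg hjk]
    refine (prod_eq_zero (mem_univ j) ?_).le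
    simp only [if_true, if_neg hjk, mul_one]
    exact sum_xx (hd j)

private theorem var_le {m : ℕ} (d : Fin m → ℕ) (hd : ∀ j, 1 ≤ d j) :
    ∑ e ∈ Fintype.piFinset (fun i => range (d i + 1)), (∑ j, xx (d j) (e j)) ^ 2 ≤
      m / 4 * ∏ i, ((d i : ℝ) + 1) := by
  have h1 : ∀ e : Fin m → ℕ, (∑ j, xx (d j) (e j)) ^ 2 =
      ∑ j, ∑ k, xx (d j) (e j) * xx (d k) (e k) := by
    intro e
    rw [sq, sum_mul_sum]
  simp only [h1]
  rw [sum_comm]
  have h2 : ∀ j : Fin m, ∑ e ∈ Fintype.piFinset (fun i => range (d i + 1)),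
      ∑ k, xx (d j) (e j) * xx (d k) (e k) ≤ 1 / 4 * ∏ i, ((d i : ℝ) + 1) := by
    intro j
    rw [sum_comm]
    calc ∑ k, ∑ e ∈ Fintype.piFinset (fun i => range (d i + 1)), xx (d j) (e j) * xx (d k) (e k)
        ≤ ∑ k, (if j = k then 1 / 4 * ∏ i, ((d i : ℝ) + 1) else 0) :=
          sum_le_sum fun k _ => cross d hd j k
      _ = 1 / 4 * ∏ i, ((d i : ℝ) + 1) := by
        rw [sum_ite_eq univ j, if_pos (mem_univ _)]
  calc ∑ j, ∑ e ∈ Fintype.piFinset (fun i => range (d i + 1)),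
        ∑ k, xx (d j) (e j) * xx (d k) (e k)
      ≤ ∑ _j : Fin m, 1 / 4 * ∏ i, ((d i : ℝ) + 1) := sum_le_sum fun j _ => h2 j
    _ = m / 4 * ∏ i, ((d i : ℝ) + 1) := by
      rw [sum_const, card_univ, Fintype.card_fin, nsmul_eq_mul]
      ring

theorem cnt (η : ℝ) (hη : 0 < η) (D : ℕ) : ∃ m : ℕ, 1 ≤ m ∧ ∀ d : Fin m → ℕ, (∀ j, 1 ≤ d j) →
    2 * (D : ℝ) * (((Fintype.piFinset fun j => range (d j + 1)).filter fun e : Fin m → ℕ =>
      ∑ j, (e j : ℝ) / (d j : ℝ) < m * (1 / 2 - η)).card : ℝ) ≤ ∏ j, ((d j : ℝ) + 1) := by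
  refine ⟨⌈(D : ℝ) / η ^ 2⌉₊ + 1, by omega, ?_⟩
  set m : ℕ := ⌈(D : ℝ) / η ^ 2⌉₊ + 1 with hm
  intro d hd
  have hm1 : (D : ℝ) / η ^ 2 ≤ m := by
    have h := Nat.le_ceil ((D : ℝ) / η ^ 2)
    have h2 : (m : ℝ) = (⌈(D : ℝ) / η ^ 2⌉₊ : ℝ) + 1 := by
      rw [hm]
      push_cast
      ring
    rw [h2]
    linarith
  have hη2 : 0 < η ^ 2 := by positivity
  have hD : (D : ℝ) ≤ m * η ^ 2 := (div_le_iff₀ hη2).1 hm1
  have hmpos : (0 : ℝ) < m := by
    have : 1 ≤ m := by omega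
    exact_mod_cast this
  set P : ℝ := ∏ j, ((d j : ℝ) + 1) with hP
  have hPpos : 0 ≤ P := prod_nonneg fun j _ => by positivity
  set S := (Fintype.piFinset fun j => range (d j + 1)).filter fun e : Fin m → ℕ =>
      ∑ j, (e j : ℝ) / (d j : ℝ) < m * (1 / 2 - η) with hS
  have h1 : (S.card : ℝ) * (m * η) ^ 2 ≤ m / 4 * P := by
    calc (S.card : ℝ) * (m * η) ^ 2 = ∑ _e ∈ S, ((m : ℝ) * η) ^ 2 := by
          rw [sum_const, nsmul_eq_mul]
      _ ≤ ∑ e ∈ S, (∑ j, xx (d j) (e j)) ^ 2 := by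
          refine sum_le_sum fun e he => ?_
          have h2 := (mem_filter.1 he).2
          have h3 : ∑ j, xx (d j) (e j) = ∑ j, (e j : ℝ) / (d j : ℝ) - m / 2 := by
            unfold xx
            rw [sum_sub_distrib, sum_const, card_univ, Fintype.card_fin, nsmul_eq_mul]
            ring
          have h4 : ∑ j, xx (d j) (e j) ≤ -(m * η) := by
            rw [h3]
            nlinarith
          have h5 : 0 ≤ (m : ℝ) * η := by positivity
          nlinarith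
      _ ≤ ∑ e ∈ Fintype.piFinset (fun i => range (d i + 1)), (∑ j, xx (d j) (e j)) ^ 2 :=
          sum_le_sum_of_subset_of_nonneg (filter_subset _ _) fun _ _ _ => sq_nonneg _
      _ ≤ m / 4 * P := var_le d hd
  have h2 : (S.card : ℝ) * (m * η ^ 2) ≤ 1 / 4 * P := by
    have h3 : (m : ℝ) * ((S.card : ℝ) * (m * η ^ 2)) ≤ m * (1 / 4 * P) := by
      calc (m : ℝ) * ((S.card : ℝ) * (m * η ^ 2)) = (S.card : ℝ) * (m * η) ^ 2 := by ring
        _ ≤ m / 4 * P := h1
        _ = m * (1 / 4 * P) := by ring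
    exact le_of_mul_le_mul_left h3 hmpos
  have h3 : (S.card : ℝ) * D ≤ (S.card : ℝ) * (m * η ^ 2) :=
    mul_le_mul_of_nonneg_left hD (Nat.cast_nonneg _)
  have h4 : 2 * (D : ℝ) * (S.card : ℝ) ≤ P := by nlinarith
  exact h4

end Pool.Agent.H88.TS
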