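import Pool.Agent.H88.TS.Axp
import Pool.Agent.H88.TS.Cnt
import Pool.Agent.H4.AR.Roth
import Pool.Agent.H4.AR.EvUp
import Pool.Agent.H4.AR.EvLow
import Pool.Agent.H4.AR.AlgD

/-! # [H88 TS ROT] Roth's theorem

PROOF. Let `ε ≤ 1` (a larger `ε` follows). If no `c` works then (reduce fractions; finitely many rationals of bounded denominator near `θ`, all `≠ θ`) for every `Q₀`
there is `r : ℚ` with `r.den ≥ Q₀`, `|θ - r| ≤ r.den^(-(2+ε))` (*). `alg_data` gives `D, c, B, w`. `η = ε/100`, `m` from `cnt`. `cr` from `H4AR.roth m η`.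
`A = |θ| + 1`, `C₁ = 16 B`. Choose `r_(m-1), .., r_0` (in this order, by (*)) with `ℓ_j = log ht r_j`: `ℓ_j ≥ L₀` large, `ℓ_i ≥ (2/cr) ℓ_j` for `i < j`. Let `Y → ∞`,
`d_j = ⌈Y/ℓ_j⌉`, `Y ≤ d_j ℓ_j ≤ (1+η) Y` for `Y ≥ ℓ_0/η`, `D₀ = max d_j = d_(m-1) ≤ 2 Y/ℓ_(m-1)`. `aux` gives `f`, `log l1 f ≤ m D₀ log C₁`. Roth's lemma (`L₀` large): `e` with
`wt d e ≤ η`, coefficient `≠ 0`. `eval_lower`: `≥ exp(-m (1+η) Y)`. `eval_upper` with `al = θ`, `lam_j = (2+ε)(1-η) ℓ_j` (`log den ≥ (1-η) ℓ_j` since `ht r ≤ A den + ..`, `L₀` large),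
`Lam = (2+ε)(1-η) Y`, `t = m(1/2-η)`: `≤ (8A)^(∑d) l1 f exp(-Lam (t - η))`, `(8A C₁)^(∑ d) ≤ exp(η Y)`. So `1 + η ≥ (2+ε)(1-η)(1/2-2η) - η`, false. -/

namespace Pool.Agent.H88.TS

open H4AR

private theorem ro_min (θ : ℝ) (hθ : Irrational θ) (Q : ℕ) :
    ∃ c : ℝ, 0 < c ∧ ∀ q : ℕ, 1 ≤ q → q < Q → ∀ p : ℤ, c ≤ |(q : ℝ) * θ - p| := by
  induction Q with
  | zero => exact ⟨1, one_pos, fun q _ h => absurd h (Nat.not_lt_zero q)⟩
  | succ Q ih =>
    obtain ⟨c, hc, h⟩ := ih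
    rcases Nat.eq_zero_or_pos Q with h0 | h0
    · subst h0
      exact ⟨1, one_pos, fun q h1 h2 => absurd h2 (by omega)⟩
    · have hpos : 0 < |(Q : ℝ) * θ - round ((Q : ℝ) * θ)| := by
        rw [abs_pos, sub_ne_zero]
        have h1 : Irrational ((Q : ℝ) * θ) := hθ.natCast_mul (by omega)
        exact h1.ne_int _
      refine ⟨min c |(Q : ℝ) * θ - round ((Q : ℝ) * θ)|, lt_min hc hpos, ?_⟩
      intro q h1 h2 p
      rcases Nat.lt_succ_iff_lt_or_eq.1 h2 with h3 | h3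
      · exact (min_le_left _ _).trans (h q h1 h3 p)
      · subst h3
        exact (min_le_right _ _).trans (round_le _ p)

private theorem ro_near (θ : ℝ) (hθ : Irrational θ) (ε : ℝ) (hε : 0 < ε)
    (hno : ∀ c : ℝ, 0 < c → ∃ p q : ℤ, 1 ≤ q ∧ (q : ℝ) ^ (1 + ε) * |q * θ - p| < c) (Q : ℕ) :
    ∃ r : ℚ, Q ≤ r.den ∧ |θ - r| ≤ (r.den : ℝ) ^ (-(2 + ε)) := by
  obtain ⟨c0, hc0, hmin⟩ := ro_min θ hθ Q
  obtain ⟨p, q, hq, hpq⟩ := hno (min 1 c0) (lt_min one_pos hc0)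
  obtain ⟨r, hr⟩ : ∃ r : ℚ, r = Rat.divInt p q := ⟨_, rfl⟩
  obtain ⟨g, hg1, hg2⟩ := Rat.num_den_mk (q := r) (n := p) (d := q) (by omega) hr
  have hden : (0 : ℤ) < r.den := by exact_mod_cast r.den_pos
  have hg : 1 ≤ g := by
    by_contra h
    have h1 : g ≤ 0 := by omega
    have h2 : g * (r.den : ℤ) ≤ 0 := mul_nonpos_of_nonpos_of_nonneg h1 hden.le
    omega
  have hgR : (1 : ℝ) ≤ (g : ℝ) := by exact_mod_cast hg
  have hdR : (1 : ℝ) ≤ (r.den : ℝ) := by exact_mod_cast r.den_pos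
  have hqR : (q : ℝ) = (g : ℝ) * (r.den : ℝ) := by exact_mod_cast hg2
  have hpR : (p : ℝ) = (g : ℝ) * (r.num : ℝ) := by exact_mod_cast hg1
  have hab : |(q : ℝ) * θ - p| = (g : ℝ) * |(r.den : ℝ) * θ - r.num| := by
    rw [hqR, hpR]
    have h1 : (g : ℝ) * (r.den : ℝ) * θ - (g : ℝ) * (r.num : ℝ) =
        (g : ℝ) * ((r.den : ℝ) * θ - r.num) := by ring
    rw [h1, abs_mul, abs_of_nonneg (by linarith)]
  set x : ℝ := |(r.den : ℝ) * θ - r.num| with hx
  have hx0 : 0 ≤ x := abs_nonneg _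
  have hq1 : (1 : ℝ) ≤ (q : ℝ) := by exact_mod_cast hq
  have hdq : (r.den : ℝ) ≤ (q : ℝ) := by
    rw [hqR]
    nlinarith
  have hle : (r.den : ℝ) ^ (1 + ε) * x ≤ (q : ℝ) ^ (1 + ε) * |(q : ℝ) * θ - p| := by
    rw [hab]
    have h1 : (r.den : ℝ) ^ (1 + ε) ≤ (q : ℝ) ^ (1 + ε) :=
      Real.rpow_le_rpow (by linarith) hdq (by linarith)
    have h2 : x ≤ (g : ℝ) * x := by nlinarith
    exact mul_le_mul h1 h2 hx0 (by positivity)
  have h1d : (1 : ℝ) ≤ (r.den : ℝ) ^ (1 + ε) := Real.one_le_rpow hdR (by linarith)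
  have hlt1 : (r.den : ℝ) ^ (1 + ε) * x < 1 := hle.trans_lt (hpq.trans_le (min_le_left _ _))
  have hlt2 : (r.den : ℝ) ^ (1 + ε) * x < c0 := hle.trans_lt (hpq.trans_le (min_le_right _ _))
  refine ⟨r, ?_, ?_⟩
  · by_contra h
    have h3 := hmin r.den r.den_pos (by omega) r.num
    have h4 : x ≤ (r.den : ℝ) ^ (1 + ε) * x := by nlinarith
    rw [← hx] at h3
    linarith
  · have hd0 : (0 : ℝ) < (r.den : ℝ) := by linarith
    have h5 : θ - (r : ℝ) = ((r.den : ℝ) * θ - r.num) / (r.den : ℝ) := by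
      have h6 : (r : ℝ) = (r.num : ℝ) / (r.den : ℝ) := Rat.cast_def r
      rw [h6]
      field_simp
    rw [h5, abs_div, abs_of_pos hd0, ← hx, div_le_iff₀ hd0]
    have h7 : (r.den : ℝ) ^ (-(2 + ε)) * (r.den : ℝ) = ((r.den : ℝ) ^ (1 + ε))⁻¹ := by
      rw [← Real.rpow_neg hd0.le]
      nth_rewrite 2 [← Real.rpow_one (r.den : ℝ)]
      rw [← Real.rpow_add hd0]
      congr 1
      ring
    rw [h7, ← one_div, le_div_iff₀ (by linarith)]
    linarith

private theorem ro_big (θ ε η : ℝ) (hε : 0 < ε) (hη0 : 0 < η) (hη1 : η < 1)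
    (hn : ∀ Q : ℕ, ∃ r : ℚ, Q ≤ r.den ∧ |θ - r| ≤ (r.den : ℝ) ^ (-(2 + ε))) (L : ℝ) :
    ∃ r : ℚ, L ≤ Real.log (ht r) ∧
      |(r : ℝ) - θ| ≤ Real.exp (-((2 + ε) * (1 - η) * Real.log (ht r))) := by
  set A : ℝ := |θ| + 1 with hA
  have hA1 : 1 ≤ A := by
    rw [hA]
    linarith [abs_nonneg θ]
  have hlA : 0 ≤ Real.log A := Real.log_nonneg hA1
  obtain ⟨r, hr1, hr2⟩ := hn ⌈Real.exp (max L (Real.log A / η))⌉₊
  have hd1 : (1 : ℝ) ≤ (r.den : ℝ) := by exact_mod_cast r.den_pos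
  have hd0 : (0 : ℝ) < (r.den : ℝ) := by linarith
  have h1 : Real.exp (max L (Real.log A / η)) ≤ (r.den : ℝ) :=
    (Nat.le_ceil _).trans (by exact_mod_cast hr1)
  have h2 : max L (Real.log A / η) ≤ Real.log (r.den : ℝ) := by
    rw [Real.le_log_iff_exp_le hd0]
    exact h1
  have h3 : L ≤ Real.log (r.den : ℝ) := (le_max_left _ _).trans h2
  have h4 : Real.log A ≤ η * Real.log (r.den : ℝ) := by
    have := (le_max_right L (Real.log A / η)).trans h2
    rw [div_le_iff₀ hη0] at this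
    linarith
  have hdh : (r.den : ℝ) ≤ ht r := le_max_right _ _
  have hlh : Real.log (r.den : ℝ) ≤ Real.log (ht r) := Real.log_le_log hd0 hdh
  have hxe : (r.den : ℝ) ^ (-(2 + ε)) = Real.exp (-((2 + ε) * Real.log (r.den : ℝ))) := by
    rw [Real.rpow_def_of_pos hd0]
    congr 1
    ring
  have hx1 : (r.den : ℝ) ^ (-(2 + ε)) ≤ 1 :=
    Real.rpow_le_one_of_one_le_of_nonpos hd1 (by linarith)
  have hrA : |(r : ℝ)| ≤ A := by
    have h5 : |(r : ℝ)| ≤ |θ| + |θ - r| := by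
      have h6 : (r : ℝ) = θ - (θ - r) := by ring
      calc |(r : ℝ)| = |θ - (θ - r)| := by rw [← h6]
        _ ≤ |θ| + |θ - r| := abs_sub _ _
    linarith
  have hnum : |(r.num : ℝ)| ≤ A * r.den := by
    have h6 : (r.num : ℝ) = (r : ℝ) * r.den := by
      have h7 : (r : ℝ) = (r.num : ℝ) / (r.den : ℝ) := Rat.cast_def r
      rw [h7]
      field_simp
    rw [h6, abs_mul, abs_of_pos hd0]
    exact mul_le_mul_of_nonneg_right hrA hd0.le
  have hht : ht r ≤ A * r.den := by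
    refine max_le hnum ?_
    nlinarith
  have hht0 : 0 < ht r := hd0.trans_le hdh
  have hlog : Real.log (ht r) ≤ Real.log A + Real.log (r.den : ℝ) := by
    rw [← Real.log_mul (by linarith) hd0.ne']
    exact Real.log_le_log hht0 hht
  refine ⟨r, h3.trans hlh, ?_⟩
  rw [abs_sub_comm]
  refine hr2.trans ?_
  rw [hxe, Real.exp_le_exp, neg_le_neg_iff, mul_assoc]
  refine mul_le_mul_of_nonneg_left ?_ (by linarith)
  have h8 : (1 - η) * Real.log (ht r) ≤ (1 - η) * (Real.log A + Real.log (r.den : ℝ)) :=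
    mul_le_mul_of_nonneg_left hlog (by linarith)
  nlinarith

private theorem ro_seq (θ a L0 K : ℝ) (hL0 : 0 < L0) (hK : 0 ≤ K)
    (hb : ∀ L : ℝ, ∃ r : ℚ, L ≤ Real.log (ht r) ∧
      |(r : ℝ) - θ| ≤ Real.exp (-(a * Real.log (ht r)))) (m : ℕ) :
    ∃ r : Fin m → ℚ, (∀ j, L0 ≤ Real.log (ht (r j))) ∧
      (∀ i j, i < j → K * Real.log (ht (r j)) ≤ Real.log (ht (r i))) ∧
      ∀ j, |((r j : ℚ) : ℝ) - θ| ≤ Real.exp (-(a * Real.log (ht (r j)))) := by
  induction m with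
  | zero => exact ⟨fun j => j.elim0, fun j => j.elim0, fun j => j.elim0, fun j => j.elim0⟩
  | succ m ih =>
    obtain ⟨r, h1, h2, h3⟩ := ih
    obtain ⟨r0, h4, h5⟩ := hb (max L0 (K * ∑ j, Real.log (ht (r j))))
    refine ⟨Fin.cons r0 r, ?_, ?_, ?_⟩
    · intro j
      refine Fin.cases ?_ (fun i => ?_) j
      · rw [Fin.cons_zero]
        exact (le_max_left _ _).trans h4
      · rw [Fin.cons_succ]
        exact h1 i
    · intro i j
      refine Fin.cases ?_ (fun i' => ?_) i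
      · refine Fin.cases ?_ (fun j' => ?_) j
        · intro h
          exact absurd h (lt_irrefl _)
        · intro _
          rw [Fin.cons_zero, Fin.cons_succ]
          refine le_trans ?_ ((le_max_right _ _).trans h4)
          refine mul_le_mul_of_nonneg_left ?_ hK
          exact Finset.single_le_sum (f := fun j => Real.log (ht (r j)))
            (fun j _ => hL0.le.trans (h1 j)) (Finset.mem_univ j')
      · refine Fin.cases ?_ (fun j' => ?_) j
        · intro h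
          exact absurd h (not_lt.2 (Fin.zero_le _))
        · intro h
          rw [Fin.cons_succ, Fin.cons_succ]
          exact h2 i' j' (Fin.succ_lt_succ_iff.1 h)
    · intro j
      refine Fin.cases ?_ (fun i => ?_) j
      · rw [Fin.cons_zero]
        exact h5
      · rw [Fin.cons_succ]
        exact h3 i

/-- the final inequality -/
private theorem ro_num (m : ℕ) (hm : 1 ≤ m) (ε η : ℝ) (hε : 0 < ε) (hε1 : ε ≤ 1)
    (hη : η = ε / 100) (Y : ℝ) (hY : 0 < Y)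
    (h : -(m * ((1 + η) * Y)) ≤ η * Y - (2 + ε) * (1 - η) * Y * (m * (1 / 2 - η) - η)) : False := by
  have hmR : (1 : ℝ) ≤ m := by exact_mod_cast hm
  have h1 : (2 + ε) * (1 - η) * (m * (1 / 2 - η) - η) ≤ η + m * (1 + η) := by
    have h2 : ((2 + ε) * (1 - η) * (m * (1 / 2 - η) - η)) * Y ≤ (η + m * (1 + η)) * Y := by
      linarith
    exact le_of_mul_le_mul_right h2 hY
  have hη0 : 0 < η := by rw [hη]; positivity
  have hη1 : η ≤ 1 / 100 := by rw [hη]; linarith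
  have h3 : (m : ℝ) * (1 / 2 - 2 * η) ≤ m * (1 / 2 - η) - η := by nlinarith
  have h4 : (2 + ε) * (1 - η) * (m * (1 / 2 - 2 * η)) ≤
      (2 + ε) * (1 - η) * (m * (1 / 2 - η) - η) :=
    mul_le_mul_of_nonneg_left h3 (mul_nonneg (by linarith) (by linarith))
  have h5 : η + m * (1 + η) ≤ m * (1 + 2 * η) := by nlinarith
  have h6 : (m : ℝ) * ((2 + ε) * (1 - η) * (1 / 2 - 2 * η)) ≤ m * (1 + 2 * η) := by
    calc (m : ℝ) * ((2 + ε) * (1 - η) * (1 / 2 - 2 * η))
        = (2 + ε) * (1 - η) * (m * (1 / 2 - 2 * η)) := by ring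
      _ ≤ _ := (h4.trans h1).trans h5
  have h7 : (2 + ε) * (1 - η) * (1 / 2 - 2 * η) ≤ 1 + 2 * η :=
    le_of_mul_le_mul_left h6 (by linarith)
  rw [hη] at h7
  nlinarith [mul_pos hε hε, mul_pos (mul_pos hε hε) hε]

private theorem ro_main (P : Polynomial ℤ) (hP : P ≠ 0) (θ : ℝ)
    (hroot : Polynomial.aeval θ P = 0) (ε η : ℝ) (hε : 0 < ε) (hε1 : ε ≤ 1) (hη : η = ε / 100)
    (hb : ∀ L : ℝ, ∃ r : ℚ, L ≤ Real.log (ht r) ∧
      |(r : ℝ) - θ| ≤ Real.exp (-((2 + ε) * (1 - η) * Real.log (ht r)))) : False := by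
  obtain ⟨D, c, B, w, hD, hc, hB, hcB, hw, hwB⟩ := alg_data P hP θ hroot
  have hη0 : 0 < η := by rw [hη]; positivity
  have hη1 : η ≤ 1 / 100 := by rw [hη]; linarith
  obtain ⟨m, hm, hcnt⟩ := cnt η hη0 D
  obtain ⟨cr, hcr0, hcr1, hroth⟩ := H4AR.roth m η hη0
  have hmR : (1 : ℝ) ≤ m := by exact_mod_cast hm
  have hBR : (1 : ℝ) ≤ B := by exact_mod_cast hB
  set A : ℝ := |θ| + 1 with hA
  have hA1 : 1 ≤ A := by
    rw [hA]
    linarith [abs_nonneg θ]
  set C : ℝ := 8 * A * (16 * B) with hC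
  have hC1 : 1 ≤ C := by
    rw [hC]
    nlinarith
  have h16 : (1 : ℝ) ≤ 16 * B := by linarith
  have hl16 : 0 ≤ Real.log (16 * B) := Real.log_nonneg h16
  have hlC : 0 ≤ Real.log C := Real.log_nonneg hC1
  set L0 : ℝ := 1 + 2 * (m * Real.log (16 * B) + 1) / cr + 2 * m * Real.log C / η with hL0
  have hL0a : 2 * (m * Real.log (16 * B) + 1) / cr ≤ L0 := by
    have : 0 ≤ 2 * m * Real.log C / η := by positivity
    rw [hL0]
    linarith
  have hL0b : 2 * m * Real.log C / η ≤ L0 := by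
    have : 0 ≤ 2 * (m * Real.log (16 * B) + 1) / cr := by positivity
    rw [hL0]
    linarith
  have hL01 : 0 < L0 := by
    have h1 : 0 ≤ 2 * m * Real.log C / η := by positivity
    have h2 : 0 ≤ 2 * (m * Real.log (16 * B) + 1) / cr := by positivity
    rw [hL0]
    linarith
  obtain ⟨r, hr1, hr2, hr3⟩ := ro_seq θ ((2 + ε) * (1 - η)) L0 (2 / cr) hL01 (by positivity) hb m
  set l : Fin m → ℝ := fun j => Real.log (ht (r j)) with hl
  have hl0 : ∀ j, 0 < l j := fun j => hL01.trans_le (hr1 j)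
  set Y : ℝ := (∑ j, l j) / η + L0 with hY
  have hsum : 0 ≤ ∑ j, l j := Finset.sum_nonneg fun j _ => (hl0 j).le
  have hY0 : 0 < Y := by
    rw [hY]
    have : 0 ≤ (∑ j, l j) / η := by positivity
    linarith
  have hYL : L0 ≤ Y := by
    rw [hY]
    have : 0 ≤ (∑ j, l j) / η := by positivity
    linarith
  have hYl : ∀ j, l j ≤ η * Y := by
    intro j
    have h1 : l j ≤ ∑ j, l j :=
      Finset.single_le_sum (f := l) (fun j _ => (hl0 j).le) (Finset.mem_univ j)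
    have h2 : η * Y = (∑ j, l j) + η * L0 := by
      rw [hY]
      field_simp
    rw [h2]
    nlinarith
  set d : Fin m → ℕ := fun j => ⌈Y / l j⌉₊ with hd
  have hd1 : ∀ j, 1 ≤ d j := fun j => Nat.ceil_pos.2 (div_pos hY0 (hl0 j))
  have hdlow : ∀ j, Y ≤ d j * l j := by
    intro j
    have h1 : Y / l j ≤ d j := Nat.le_ceil _
    rw [div_le_iff₀ (hl0 j)] at h1
    exact h1
  have hdup : ∀ j, (d j : ℝ) * l j ≤ (1 + η) * Y := by
    intro j
    have h1 : (d j : ℝ) < Y / l j + 1 := Nat.ceil_lt_add_one (div_pos hY0 (hl0 j)).le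
    have h2 : (d j : ℝ) * l j ≤ (Y / l j + 1) * l j :=
      mul_le_mul_of_nonneg_right h1.le (hl0 j).le
    have h3 : (Y / l j + 1) * l j = Y + l j := by
      have := (hl0 j).ne'
      field_simp
    linarith [hYl j]
  have hdD : ∀ j, (d j : ℝ) ≤ 2 * Y / L0 := by
    intro j
    rw [le_div_iff₀ hL01]
    have h1 : (d j : ℝ) * L0 ≤ d j * l j := mul_le_mul_of_nonneg_left (hr1 j) (Nat.cast_nonneg _)
    nlinarith [hdup j]
  have hsumd : ((∑ j, d j : ℕ) : ℝ) ≤ m * (2 * Y / L0) := by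
    push_cast
    calc ∑ j, (d j : ℝ) ≤ ∑ _j : Fin m, 2 * Y / L0 := Finset.sum_le_sum fun j _ => hdD j
      _ = m * (2 * Y / L0) := by
        rw [Finset.sum_const, Finset.card_univ, Fintype.card_fin, nsmul_eq_mul]
  obtain ⟨f, hf0, hfd, hfl, hfv⟩ := aux m D hm hD η θ c hc B hB hcB w hw hwB d hd1 (hcnt d hd1)
  have hl1log : Real.log (l1 f) ≤ (∑ j, d j : ℕ) * Real.log (16 * B) := by
    rcases le_or_gt (l1 f) 0 with h0 | h0
    · have h1 : l1 f = 0 := le_antisymm h0 (l1_nonneg f)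
      rw [h1, Real.log_zero]
      positivity
    · have h1 := Real.log_le_log h0 hfl
      rw [Real.log_pow] at h1
      exact h1
  have hkey : Real.log (l1 f) + 2 * Y / L0 ≤ cr * Y := by
    have h1 : ((∑ j, d j : ℕ) : ℝ) * Real.log (16 * B) ≤ m * (2 * Y / L0) * Real.log (16 * B) :=
      mul_le_mul_of_nonneg_right hsumd hl16
    have h2 : m * (2 * Y / L0) * Real.log (16 * B) + 2 * Y / L0 =
        (2 * (m * Real.log (16 * B) + 1)) / L0 * Y := by ring
    have h3 : (2 * (m * Real.log (16 * B) + 1)) / L0 ≤ cr := by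
      rw [div_le_iff₀ hL01]
      rw [div_le_iff₀ hcr0] at hL0a
      linarith
    have h4 := mul_le_mul_of_nonneg_right h3 hY0.le
    linarith
  obtain ⟨e, he1, he2⟩ := hroth d r f (2 * Y / L0) (by
      rw [le_div_iff₀ hL01]
      linarith) hd1 hdD (by
      intro i j hij
      have h1 := hr2 i j hij
      have h2 : (d i : ℝ) * l i ≤ (1 + η) * Y := hdup i
      have h3 : Y ≤ d j * l j := hdlow j
      have h4 : 2 / cr * l j ≤ l i := h1
      have h5 : (d i : ℝ) * (2 / cr * l j) ≤ (1 + η) * (d j * l j) := by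
        have h6 : (d i : ℝ) * (2 / cr * l j) ≤ d i * l i :=
          mul_le_mul_of_nonneg_left h4 (Nat.cast_nonneg _)
        have h7 : (1 + η) * Y ≤ (1 + η) * (d j * l j) :=
          mul_le_mul_of_nonneg_left h3 (by linarith)
        linarith
      have h8 : ((d i : ℝ) * (2 / cr)) * l j ≤ ((1 + η) * d j) * l j := by linarith
      have h9 : (d i : ℝ) * (2 / cr) ≤ (1 + η) * d j := le_of_mul_le_mul_right h8 (hl0 j)
      have h10 : (d i : ℝ) * 2 ≤ cr * ((1 + η) * d j) := by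
        have h11 := mul_le_mul_of_nonneg_left h9 hcr0.le
        have h12 : cr * ((d i : ℝ) * (2 / cr)) = d i * 2 := by field_simp
        linarith
      have h13 : (0 : ℝ) ≤ cr * d j := by positivity
      nlinarith) hf0 hfd (by
      intro j
      refine hkey.trans ?_
      exact mul_le_mul_of_nonneg_left (hdlow j) hcr0.le)
  have hlow := eval_lower d r f hfd e he2
  have hup := eval_upper d hd1 f hfd (fun _ => θ) (fun j => (r j : ℝ)) A hA1
    (fun j => by rw [hA]; linarith) (m * (1 / 2 - η)) hfv (fun j => (2 + ε) * (1 - η) * l j)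
    (fun j => mul_nonneg (mul_nonneg (by linarith) (by linarith)) (hl0 j).le)
    (fun j => hr3 j) ((2 + ε) * (1 - η) * Y)
    (mul_nonneg (mul_nonneg (by linarith) (by linarith)) hY0.le)
    (fun j => by
      have h1 := mul_le_mul_of_nonneg_left (hdlow j)
        (mul_nonneg (show (0 : ℝ) ≤ 2 + ε by linarith) (show (0 : ℝ) ≤ 1 - η by linarith))
      linarith) e
  rw [cast_coeff] at hup
  have h1 := hlow.trans hup
  have h2 : Real.exp (-(m * ((1 + η) * Y))) ≤ Real.exp (-∑ j, (d j : ℝ) * Real.log (ht (r j))) := by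
    rw [Real.exp_le_exp, neg_le_neg_iff]
    calc ∑ j, (d j : ℝ) * Real.log (ht (r j)) ≤ ∑ _j : Fin m, (1 + η) * Y :=
          Finset.sum_le_sum fun j _ => hdup j
      _ = m * ((1 + η) * Y) := by
        rw [Finset.sum_const, Finset.card_univ, Fintype.card_fin, nsmul_eq_mul]
  have h3 : (8 * A) ^ (∑ j, d j) * l1 f ≤ Real.exp (η * Y) := by
    have h4 : (8 * A) ^ (∑ j, d j) * l1 f ≤ C ^ (∑ j, d j) := by
      rw [hC, mul_pow (8 * A)]
      exact mul_le_mul_of_nonneg_left hfl (by positivity)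
    refine h4.trans ?_
    have hC0 : 0 < C := by linarith
    rw [← Real.rpow_natCast, Real.rpow_def_of_pos hC0, Real.exp_le_exp]
    have h5 : Real.log C * ((∑ j, d j : ℕ) : ℝ) ≤ Real.log C * (m * (2 * Y / L0)) :=
      mul_le_mul_of_nonneg_left hsumd hlC
    have h6 : Real.log C * (m * (2 * Y / L0)) = (2 * m * Real.log C) / L0 * Y := by ring
    have h7 : (2 * m * Real.log C) / L0 ≤ η := by
      rw [div_le_iff₀ hL01]
      rw [div_le_iff₀ hη0] at hL0b
      linarith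
    have h8 := mul_le_mul_of_nonneg_right h7 hY0.le
    linarith
  have h4 : Real.exp (-((2 + ε) * (1 - η) * Y * (m * (1 / 2 - η) - wt d e))) ≤
      Real.exp (-((2 + ε) * (1 - η) * Y * (m * (1 / 2 - η) - η))) := by
    rw [Real.exp_le_exp, neg_le_neg_iff]
    refine mul_le_mul_of_nonneg_left (by linarith) ?_
    exact mul_nonneg (mul_nonneg (by linarith) (by linarith)) hY0.le
  have h5 : Real.exp (-(m * ((1 + η) * Y))) ≤
      Real.exp (η * Y) * Real.exp (-((2 + ε) * (1 - η) * Y * (m * (1 / 2 - η) - η))) := by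
    refine (h2.trans h1).trans ?_
    exact mul_le_mul h3 h4 (Real.exp_pos _).le (Real.exp_pos _).le
  rw [← Real.exp_add, Real.exp_le_exp] at h5
  exact ro_num m hm ε η hε hε1 hη Y hY0 (by linarith)

theorem roth (P : Polynomial ℤ) (hP : P ≠ 0) (θ : ℝ) (hθ : Irrational θ) (hroot : Polynomial.aeval θ P = 0) (ε : ℝ) (hε : 0 < ε) :
    ∃ c : ℝ, 0 < c ∧ ∀ p q : ℤ, 1 ≤ q → c ≤ (q : ℝ) ^ (1 + ε) * |q * θ - p| := by
  have H : ∀ ε : ℝ, 0 < ε → ε ≤ 1 →
      ∃ c : ℝ, 0 < c ∧ ∀ p q : ℤ, 1 ≤ q → c ≤ (q : ℝ) ^ (1 + ε) * |q * θ - p| := by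
    intro ε hε hε1
    by_contra hno
    push Not at hno
    have h1 := ro_near θ hθ ε hε hno
    have h2 := ro_big θ ε (ε / 100) hε (by positivity) (by linarith) h1
    exact ro_main P hP θ hroot ε (ε / 100) hε hε1 rfl h2
  obtain ⟨c, hc, h⟩ := H (min ε 1) (lt_min hε one_pos) (min_le_right _ _)
  refine ⟨c, hc, fun p q hq => (h p q hq).trans ?_⟩
  refine mul_le_mul_of_nonneg_right ?_ (abs_nonneg _)
  have hq1 : (1 : ℝ) ≤ (q : ℝ) := by exact_mod_cast hq
  exact Real.rpow_le_rpow_of_exponent_le hq1 (by linarith [min_le_left ε 1])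

end Pool.Agent.H88.TS
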