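import Mathlib

/-! # [H88 TS STR] Integer points in a strip around a line of algebraic slope

PROOF. Dirichlet (`Real.exists_rat_abs_sub_le_and_den_le`): coprime `p, q`, `1 ≤ q ≤ X`, `|q θ - p| ≤ 1/X`; `c ≤ q^(1+ε)/X` gives `X/q ≤ C X^ε`. Blocks:
`x = q b + r`, `0 ≤ r < q`, at most `4 X/q` values of `b`. In one block `(x,y) ↦ q y - p x` is injective (coprime) and
`q y - p x = q s + q b (q θ - p) + (q (y - θ x - s) + r (q θ - p))`, the last term is `≤ q w + 1`: at most `2 q w + 3` points. Total `(4X/q)(2qw+3)`. -/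

namespace Pool.Agent.H88.TS

/-- integers in a closed interval -/
theorem str_int (A R : ℝ) (U : Finset ℤ) (hU : ∀ k ∈ U, |(k : ℝ) - A| ≤ R) : (U.card : ℝ) ≤ 2 * R + 1 ∨ U = ∅ := by
  by_cases h0 : U = ∅
  · exact Or.inr h0
  left
  obtain ⟨k0, hk0⟩ := Finset.nonempty_iff_ne_empty.2 h0
  have hR : 0 ≤ R := (abs_nonneg _).trans (hU k0 hk0)
  have hsub : U ⊆ Finset.Icc ⌈A - R⌉ ⌊A + R⌋ := by
    intro k hk
    have h := abs_le.1 (hU k hk)
    rw [Finset.mem_Icc, Int.ceil_le, Int.le_floor]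
    constructor <;> linarith
  have h1 := Finset.card_le_card hsub
  rw [Int.card_Icc] at h1
  have h2 : (((⌊A + R⌋ + 1 - ⌈A - R⌉).toNat : ℤ) : ℝ) ≤ 2 * R + 1 := by
    have h3 : ((⌊A + R⌋ + 1 - ⌈A - R⌉ : ℤ) : ℝ) ≤ 2 * R + 1 := by
      push_cast
      have := Int.floor_le (A + R)
      have := Int.le_ceil (A - R)
      linarith
    rcases le_or_gt 0 (⌊A + R⌋ + 1 - ⌈A - R⌉) with h4 | h4
    · rw [Int.toNat_of_nonneg h4]
      exact h3
    · rw [Int.toNat_of_nonpos h4.le]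
      simp only [Nat.cast_zero, Int.cast_zero]
      linarith
  calc (U.card : ℝ) ≤ ((⌊A + R⌋ + 1 - ⌈A - R⌉).toNat : ℝ) := by exact_mod_cast h1
    _ = (((⌊A + R⌋ + 1 - ⌈A - R⌉).toNat : ℤ) : ℝ) := by norm_cast
    _ ≤ _ := h2

/-- the count with a given rational approximation -/
theorem str_count (θ : ℝ) (p : ℤ) (q : ℕ) (hq : 1 ≤ q) (hcop : IsCoprime p (q : ℤ)) (s w X : ℝ) (hX : 1 ≤ X) (hw : 0 ≤ w)
    (hqX : (q : ℝ) ≤ X) (hap : |(q : ℝ) * θ - p| ≤ 1 / X) (T : Finset (ℤ × ℤ))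
    (hT : ∀ P ∈ T, |(P.1 : ℝ)| ≤ X ∧ |(P.2 : ℝ) - θ * P.1 - s| ≤ w) :
    (T.card : ℝ) ≤ (4 * X / q) * (2 * (q * w) + 3) := by
  classical
  have hq0 : (0 : ℝ) < q := by exact_mod_cast hq
  have hX0 : 0 < X := by linarith
  have hqz : (q : ℤ) ≠ 0 := by exact_mod_cast (by omega : q ≠ 0)
  have hqzp : (0 : ℤ) < q := by exact_mod_cast hq
  obtain ⟨B, hB⟩ : ∃ B : Finset ℤ, B = T.image fun P => P.1 / (q : ℤ) := ⟨_, rfl⟩
  have hBc : (B.card : ℝ) ≤ 4 * X / q := by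
    have hsub : B ⊆ Finset.Icc ⌊-X / q⌋ ⌊X / q⌋ := by
      intro b hb
      rw [hB] at hb
      obtain ⟨P, hP, rfl⟩ := Finset.mem_image.1 hb
      have h1 := abs_le.1 (hT P hP).1
      have e1 := Int.emod_add_mul_ediv P.1 q
      have r1 := Int.emod_nonneg P.1 hqz
      have r3 := Int.emod_lt_of_pos P.1 hqzp
      obtain ⟨b, hb⟩ : ∃ b : ℤ, b = P.1 / (q : ℤ) := ⟨_, rfl⟩
      have l1 : (q : ℤ) * b ≤ P.1 := by rw [hb]; linarith
      have l2 : P.1 < (q : ℤ) * b + q := by rw [hb]; linarith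
      have l1' : (q : ℝ) * b ≤ P.1 := by exact_mod_cast l1
      have l2' : (P.1 : ℝ) < (q : ℝ) * b + q := by exact_mod_cast l2
      rw [← hb, Finset.mem_Icc]
      constructor
      · rw [← Int.lt_add_one_iff, Int.floor_lt, div_lt_iff₀ hq0]
        push_cast
        linarith [h1.1]
      · rw [Int.le_floor, le_div_iff₀ hq0]
        linarith [h1.2]
    have h3 := Finset.card_le_card hsub
    rw [Int.card_Icc] at h3
    have h4 : (((⌊X / q⌋ + 1 - ⌊-X / q⌋).toNat : ℤ) : ℝ) ≤ 2 * (X / q) + 2 := by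
      have h5 : ((⌊X / q⌋ + 1 - ⌊-X / q⌋ : ℤ) : ℝ) ≤ 2 * (X / q) + 2 := by
        push_cast
        have := Int.floor_le (X / q)
        have h6 := Int.lt_floor_add_one (-X / q)
        rw [neg_div] at h6
        rw [neg_div]
        linarith
      rcases le_or_gt 0 (⌊X / q⌋ + 1 - ⌊-X / q⌋) with h6 | h6
      · rw [Int.toNat_of_nonneg h6]
        exact h5
      · rw [Int.toNat_of_nonpos h6.le]
        simp only [Nat.cast_zero, Int.cast_zero]
        have : 0 ≤ X / q := by positivity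
        linarith
    have h7 : (B.card : ℝ) ≤ 2 * (X / q) + 2 := by
      calc (B.card : ℝ) ≤ ((⌊X / q⌋ + 1 - ⌊-X / q⌋).toNat : ℝ) := by exact_mod_cast h3
        _ = (((⌊X / q⌋ + 1 - ⌊-X / q⌋).toNat : ℤ) : ℝ) := by norm_cast
        _ ≤ _ := h4
    have h8 : 1 ≤ X / q := by
      rw [le_div_iff₀ hq0]
      linarith
    calc (B.card : ℝ) ≤ 2 * (X / q) + 2 := h7
      _ ≤ 4 * (X / q) := by linarith
      _ = 4 * X / q := by ring
  have hfib : ∀ b ∈ B, ((T.filter fun P => P.1 / (q : ℤ) = b).card : ℝ) ≤ 2 * (q * w) + 3 := by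
    intro b _
    obtain ⟨U, hU⟩ : ∃ U : Finset ℤ, U = (T.filter fun P => P.1 / (q : ℤ) = b).image fun P => (q : ℤ) * P.2 - p * P.1 := ⟨_, rfl⟩
    have hinj : (T.filter fun P => P.1 / (q : ℤ) = b).card = U.card := by
      rw [hU, Finset.card_image_of_injOn]
      intro P hP Q hQ hPQ
      have h1 := (Finset.mem_filter.1 (Finset.mem_coe.1 hP)).2
      have h2 := (Finset.mem_filter.1 (Finset.mem_coe.1 hQ)).2
      have h3 : (q : ℤ) * P.2 - p * P.1 = q * Q.2 - p * Q.1 := hPQ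
      have h4 : (q : ℤ) ∣ p * (P.1 - Q.1) := ⟨P.2 - Q.2, by linear_combination (-1 : ℤ) * h3⟩
      have h5 : (q : ℤ) ∣ P.1 - Q.1 := hcop.symm.dvd_of_dvd_mul_left h4
      have e1 := Int.emod_add_mul_ediv P.1 q
      have e2 := Int.emod_add_mul_ediv Q.1 q
      have r1 := Int.emod_nonneg P.1 hqz
      have r2 := Int.emod_nonneg Q.1 hqz
      have r3 := Int.emod_lt_of_pos P.1 hqzp
      have r4 := Int.emod_lt_of_pos Q.1 hqzp
      have h6 : P.1 - Q.1 = P.1 % q - Q.1 % q := by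
        rw [h1] at e1
        rw [h2] at e2
        linarith
      have h7 : |P.1 - Q.1| < (q : ℤ) := by
        rw [h6, abs_lt]
        constructor <;> linarith
      have h8 : P.1 = Q.1 := by
        have := Int.eq_zero_of_abs_lt_dvd h5 h7
        linarith
      have h9 : P.2 = Q.2 := by
        rw [h8] at h3
        have : (q : ℤ) * P.2 = q * Q.2 := by linarith
        exact mul_left_cancel₀ hqz this
      exact Prod.ext h8 h9
    have hUb : ∀ k ∈ U, |(k : ℝ) - (q * s + q * b * (q * θ - p))| ≤ q * w + 1 := by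
      intro k hk
      rw [hU] at hk
      obtain ⟨P, hP, rfl⟩ := Finset.mem_image.1 hk
      obtain ⟨hPT, hPb⟩ := Finset.mem_filter.1 hP
      obtain ⟨h1, h2⟩ := hT P hPT
      have e1 := Int.emod_add_mul_ediv P.1 q
      rw [hPb] at e1
      have r1 := Int.emod_nonneg P.1 hqz
      have r3 := Int.emod_lt_of_pos P.1 hqzp
      have e2 : (P.1 : ℝ) = ((P.1 % (q : ℤ) : ℤ) : ℝ) + q * b := by
        have : ((P.1 % (q : ℤ) + q * b : ℤ) : ℝ) = ((P.1 : ℤ) : ℝ) := by rw [e1]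
        push_cast at this
        linarith
      have r1' : (0 : ℝ) ≤ ((P.1 % (q : ℤ) : ℤ) : ℝ) := by exact_mod_cast r1
      have r3' : ((P.1 % (q : ℤ) : ℤ) : ℝ) ≤ q := by
        have : ((P.1 % (q : ℤ) : ℤ) : ℝ) < ((q : ℤ) : ℝ) := by exact_mod_cast r3
        have h9 : (((q : ℕ) : ℤ) : ℝ) = (q : ℝ) := by norm_cast
        rw [h9] at this
        exact this.le
      have h3 : (((q : ℤ) * P.2 - p * P.1 : ℤ) : ℝ) - (q * s + q * b * (q * θ - p)) =
          q * ((P.2 : ℝ) - θ * P.1 - s) + ((P.1 % (q : ℤ) : ℤ) : ℝ) * (q * θ - p) := by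
        push_cast
        rw [e2]
        push_cast
        ring
      rw [h3]
      refine (abs_add_le _ _).trans (add_le_add ?_ ?_)
      · rw [abs_mul, abs_of_pos hq0]
        exact mul_le_mul_of_nonneg_left h2 hq0.le
      · rw [abs_mul, abs_of_nonneg r1']
        calc ((P.1 % (q : ℤ) : ℤ) : ℝ) * |(q : ℝ) * θ - p| ≤ X * (1 / X) :=
              mul_le_mul (r3'.trans hqX) hap (abs_nonneg _) hX0.le
          _ = 1 := by field_simp
    rw [hinj]
    rcases str_int _ _ U hUb with h | h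
    · linarith
    · rw [h]
      simp only [Finset.card_empty, Nat.cast_zero]
      positivity
  have hcard : (T.card : ℝ) = ∑ b ∈ B, ((T.filter fun P => P.1 / (q : ℤ) = b).card : ℝ) := by
    rw [hB]
    have := Finset.card_eq_sum_card_fiberwise (f := fun P : ℤ × ℤ => P.1 / (q : ℤ)) (s := T)
      (t := T.image fun P : ℤ × ℤ => P.1 / (q : ℤ)) (fun P hP => Finset.mem_coe.2 (Finset.mem_image_of_mem _ hP))
    exact_mod_cast this
  rw [hcard]
  refine (Finset.sum_le_card_nsmul _ _ _ hfib).trans ?_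
  rw [nsmul_eq_mul]
  exact mul_le_mul_of_nonneg_right hBc (by positivity)

theorem strip (θ ε c : ℝ) (hc : 0 < c) (hε : 0 < ε) (hR : ∀ p q : ℤ, 1 ≤ q → c ≤ (q : ℝ) ^ (1 + ε) * |q * θ - p|) :
    ∃ C : ℝ, 0 ≤ C ∧ ∀ s w X : ℝ, 1 ≤ X → 0 ≤ w → ∀ T : Finset (ℤ × ℤ),
      (∀ P ∈ T, |(P.1 : ℝ)| ≤ X ∧ |(P.2 : ℝ) - θ * P.1 - s| ≤ w) → (T.card : ℝ) ≤ C * (X ^ ε + w * X) := by
  obtain ⟨κ, hκ⟩ : ∃ κ : ℝ, κ = (1 / c) ^ (1 / (1 + ε)) := ⟨_, rfl⟩
  have hκ0 : 0 < κ := by rw [hκ]; positivity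
  refine ⟨12 * κ + 8, by positivity, ?_⟩
  intro s w X hX hw T hT
  have hX0 : 0 < X := by linarith
  have hN : 0 < ⌊X⌋₊ := Nat.floor_pos.2 hX
  obtain ⟨r, hr1, hr2⟩ := Real.exists_rat_abs_sub_le_and_den_le θ hN
  have hd0 : (0 : ℝ) < r.den := by exact_mod_cast r.den_pos
  have hqX : (r.den : ℝ) ≤ X := by
    have h1 : (r.den : ℝ) ≤ (⌊X⌋₊ : ℝ) := by exact_mod_cast hr2
    exact h1.trans (Nat.floor_le hX0.le)
  have hfl : X < (⌊X⌋₊ : ℝ) + 1 := Nat.lt_floor_add_one X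
  have hap : |(r.den : ℝ) * θ - (r.num : ℤ)| ≤ 1 / X := by
    have h1 : (r.den : ℝ) * θ - (r.num : ℤ) = r.den * (θ - (r : ℝ)) := by
      have h2 : ((r : ℚ) : ℝ) = (r.num : ℝ) / r.den := by
        rw [Rat.cast_def]
      rw [h2]
      field_simp
    rw [h1, abs_mul, abs_of_pos hd0]
    calc (r.den : ℝ) * |θ - r| ≤ r.den * (1 / (((⌊X⌋₊ : ℝ) + 1) * r.den)) := mul_le_mul_of_nonneg_left hr1 hd0.le
      _ = 1 / ((⌊X⌋₊ : ℝ) + 1) := by field_simp
      _ ≤ 1 / X := by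
        apply one_div_le_one_div_of_le hX0 hfl.le
  have hcop : IsCoprime r.num ((r.den : ℕ) : ℤ) := by
    rw [Int.isCoprime_iff_gcd_eq_one]
    show Nat.gcd r.num.natAbs (((r.den : ℕ) : ℤ)).natAbs = 1
    rw [Int.natAbs_natCast]
    exact r.reduced
  have h1 := str_count θ r.num r.den r.den_pos hcop s w X hX hw hqX hap T hT
  have h2 : c ≤ (r.den : ℝ) ^ (1 + ε) * (1 / X) := by
    have := hR r.num (r.den : ℤ) (by exact_mod_cast r.den_pos)
    have h3 : (((r.den : ℕ) : ℤ) : ℝ) = (r.den : ℝ) := by norm_cast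
    rw [h3] at this
    exact this.trans (mul_le_mul_of_nonneg_left hap (by positivity))
  have hq1 : (1 : ℝ) ≤ r.den := by exact_mod_cast r.den_pos
  -- `X / q ≤ κ X ^ ε`
  have h3 : X / r.den ≤ κ * X ^ ε := by
    have h4 : X ≤ (1 / c) * (r.den : ℝ) ^ (1 + ε) := by
      rw [mul_one_div, le_div_iff₀ hX0] at h2
      rw [div_mul_eq_mul_div, one_mul, le_div_iff₀ hc]
      linarith
    have h5 : X ^ (1 / (1 + ε)) ≤ κ * r.den := by
      have h6 : X ^ (1 / (1 + ε)) ≤ ((1 / c) * (r.den : ℝ) ^ (1 + ε)) ^ (1 / (1 + ε)) :=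
        Real.rpow_le_rpow hX0.le h4 (by positivity)
      rw [Real.mul_rpow (by positivity) (by positivity), ← Real.rpow_mul hd0.le, mul_one_div_cancel (by positivity),
        Real.rpow_one, ← hκ] at h6
      exact h6
    have h7 : X = X ^ (1 / (1 + ε)) * X ^ (ε / (1 + ε)) := by
      rw [← Real.rpow_add hX0, ← add_div, div_self (by positivity), Real.rpow_one]
    have h8 : X ^ (ε / (1 + ε)) ≤ X ^ ε := by
      refine Real.rpow_le_rpow_of_exponent_le hX ?_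
      rw [div_le_iff₀ (by positivity)]
      nlinarith
    rw [div_le_iff₀ hd0]
    calc X = X ^ (1 / (1 + ε)) * X ^ (ε / (1 + ε)) := h7
      _ ≤ (κ * r.den) * X ^ ε := mul_le_mul h5 h8 (by positivity) (by positivity)
      _ = κ * X ^ ε * r.den := by ring
  have h9 : (4 * X / r.den) * (2 * (r.den * w) + 3) = 8 * (w * X) + 12 * (X / r.den) := by
    field_simp
    ring
  rw [h9] at h1
  have hXe : 0 ≤ X ^ ε := by positivity
  have hwX : 0 ≤ w * X := by positivity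
  nlinarith [mul_nonneg hκ0.le hwX]

end Pool.Agent.H88.TS
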