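import Pool.Agent.H88.TS.Def
import Pool.Agent.H15.SC.Vol
import Pool.Agent.H15.SC.Pair
import Pool.Agent.H15.SC.Ksum
import Pool.Agent.H15.SC.Pt

/-! # [H88 TS BR] Bridge to the conventions of H15/SC

`Pool.Agent.H8.NoPt.Ix n` and `Pool.Agent.H8.AA.Ix n` are the same type, `arr a = co a`, `Box = box`; only the order of summation in `ev` differs. -/

namespace Pool.Agent.H88.TS

theorem arr_co {n : ℕ} (a : Pool.Agent.H8.AA.Ix n → ℤ) : Pool.Agent.H8.NoPt.arr (n := n) a = Pool.Agent.H8.AA.co a := by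
  funext i j
  rfl

theorem ev_ev (n : ℕ) (e : ℕ → ℕ → ℤ) (x y : ℤ) : Pool.Agent.H72.ES.ev n e x y = Pool.Agent.H8.AA.ev n e x y := by
  unfold Pool.Agent.H72.ES.ev Pool.Agent.H8.AA.ev
  rw [Finset.sum_sigma', Finset.sum_sigma']
  refine Finset.sum_nbij' (fun q => ⟨q.1 + q.2, q.2⟩) (fun q => ⟨q.1 - q.2, q.2⟩) ?_ ?_ ?_ ?_ ?_
  · rintro ⟨i, j⟩ h
    simp only [Finset.mem_sigma, Finset.mem_range] at h ⊢
    omega
  · rintro ⟨k, j⟩ h
    simp only [Finset.mem_sigma, Finset.mem_range] at h ⊢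
    omega
  · rintro ⟨i, j⟩ _
    simp only [Nat.add_sub_cancel]
  · rintro ⟨k, j⟩ h
    simp only [Finset.mem_sigma, Finset.mem_range] at h
    have h1 : k - j + j = k := by omega
    simp only [h1]
  · rintro ⟨i, j⟩ _
    simp only [Nat.add_sub_cancel]
    ring

theorem ev_add (n : ℕ) (c d : Pool.Agent.H8.AA.Ix n → ℤ) (x y : ℤ) :
    Pool.Agent.H8.AA.ev n (Pool.Agent.H8.AA.co (c - d)) x y =
      Pool.Agent.H8.AA.ev n (Pool.Agent.H8.AA.co c) x y - Pool.Agent.H8.AA.ev n (Pool.Agent.H8.AA.co d) x y := by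
  have h : ∀ a b, Pool.Agent.H8.AA.co (c - d) a b = Pool.Agent.H8.AA.co c a b - Pool.Agent.H8.AA.co d a b := by
    intro a b
    unfold Pool.Agent.H8.AA.co
    by_cases hab : a + b ≤ n
    · rw [dif_pos hab, dif_pos hab, dif_pos hab]
      rfl
    · rw [dif_neg hab, dif_neg hab, dif_neg hab, sub_zero]
  unfold Pool.Agent.H8.AA.ev
  rw [← Finset.sum_sub_distrib]
  refine Finset.sum_congr rfl fun k _ => ?_
  rw [← Finset.sum_sub_distrib]
  refine Finset.sum_congr rfl fun j _ => ?_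
  rw [h, sub_mul]

/-- exchange of the variables on vectors -/
def sv {n : ℕ} (c : Pool.Agent.H8.AA.Ix n → ℤ) : Pool.Agent.H8.AA.Ix n → ℤ :=
  fun p => c ⟨(p.1.2, p.1.1), by have := p.2; show p.1.2.val + p.1.1.val ≤ n; omega⟩

theorem sv_sv {n : ℕ} (c : Pool.Agent.H8.AA.Ix n → ℤ) : sv (sv c) = c := by
  funext p
  rfl

theorem sv_ev {n : ℕ} (c : Pool.Agent.H8.AA.Ix n → ℤ) (x y : ℤ) :
    Pool.Agent.H8.AA.ev n (Pool.Agent.H8.AA.co (sv c)) x y = Pool.Agent.H8.AA.ev n (Pool.Agent.H8.AA.co c) y x := by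
  have h : Pool.Agent.H8.AA.co (sv c) = Pool.Agent.H8.AA.sw (Pool.Agent.H8.AA.co c) := by
    funext a b
    unfold Pool.Agent.H8.AA.sw Pool.Agent.H8.AA.co
    by_cases hab : a + b ≤ n
    · rw [dif_pos hab, dif_pos (by omega : b + a ≤ n)]
      rfl
    · rw [dif_neg hab, dif_neg (by omega : ¬ b + a ≤ n)]
  rw [h, Pool.Agent.H8.AA.ev_sw]

end Pool.Agent.H88.TS
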