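import Pool.Agent.H88.TS.Dig
import Pool.Agent.H88.TS.Near
import Pool.Agent.H88.TS.Str
import Pool.Agent.H88.TS.Rot
import Pool.Agent.H88.A2.Gd

/-! # [H88 TS MID] The middle range, terms of degree `n - 1` fixed

PROOF. `c0` from `H88.A2.gd_of` for `G` (both orders of the variables; leading form of `G + G'`-arrays the same). `near` (with `S = H`, bound `2B`): every zero `P`, `|y| ≤ |x|`, `|x| ≥ A H`, of
`F = G' + pol c` is within `C H²/|x|` of the line `y = t x - φ_(n-1)(t)/φ_n'(t)`, `t` one of the `≤ n` real zeros of `fm (ar G) n`, the line depending only on `G'` (`deg pol c ≤ n - 2`).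
`t` is irrational (`irr`, `n ≥ 2`): `roth` with `ε = 1/(4E+4)` and `strip`: the number of such `P` with `2^k ≤ |x| < 2^(k+1)` is `≤ C (X^ε + H²)`, `X = 2^(k+1) ≤ 2 (BH)^E`;
number of `k` at most `C log (BH)^E ≤ C H^(1/4)`. Total `≤ C H^(5/2)` points `P`; each has `≤ C (1+1)^j K^(M-j-1)` vectors (`dig`, `N = -G'(P)`). The case `|x| ≤ |y|` by `sw`/`sv`. -/

namespace Pool.Agent.H88.TS

open MvPolynomial Pool.Agent.H8.AA Pool.Agent.H88.A2

private theorem fm_cg {n : ℕ} {e e' : ℕ → ℕ → ℤ} (h : ∀ a b, a + b = n → e a b = e' a b) : fm e n = fm e' n := by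
  unfold fm
  refine Finset.sum_congr rfl fun j hj => ?_
  have hj' : j ≤ n := by
    have := Finset.mem_range.1 hj
    omega
  rw [h (n - j) j (by omega)]

private theorem Kbd (E B : ℕ) (hB : 1 ≤ B) : ∃ C : ℝ, 0 ≤ C ∧ ∀ H : ℕ, 1 ≤ H →
    ((Nat.log 2 ((B * H) ^ E) + 1 : ℕ) : ℝ) ≤ C * (H : ℝ) ^ (1 / 2 : ℝ) := by
  refine ⟨4 * E * (B : ℝ) ^ (1 / 2 : ℝ) + 1, by positivity, ?_⟩
  intro H hH
  have hH1 : (1 : ℝ) ≤ H := by exact_mod_cast hH
  have hHr : (1 : ℝ) ≤ (H : ℝ) ^ (1 / 2 : ℝ) := Real.one_le_rpow hH1 (by norm_num)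
  have hBH : 0 < B * H := Nat.mul_pos hB hH
  have h1 : 2 ^ Nat.log 2 ((B * H) ^ E) ≤ (B * H) ^ E := Nat.pow_log_le_self 2 (by positivity)
  have h2 : (2 : ℝ) ^ Nat.log 2 ((B * H) ^ E) ≤ ((B * H : ℕ) : ℝ) ^ E := by exact_mod_cast h1
  have h3 := Real.log_le_log (by positivity) h2
  rw [Real.log_pow, Real.log_pow] at h3
  have h4 : Real.log ((B * H : ℕ) : ℝ) ≤ ((B * H : ℕ) : ℝ) ^ (1 / 2 : ℝ) / (1 / 2 : ℝ) :=
    Real.log_le_rpow_div (by positivity) (by norm_num)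
  have h5 : (((B * H : ℕ) : ℝ)) ^ (1 / 2 : ℝ) = (B : ℝ) ^ (1 / 2 : ℝ) * (H : ℝ) ^ (1 / 2 : ℝ) := by
    push_cast
    rw [Real.mul_rpow (by positivity) (by positivity)]
  have h6 := Real.log_two_gt_d9
  have hE : (0 : ℝ) ≤ E := by positivity
  have h7 : (E : ℝ) * Real.log ((B * H : ℕ) : ℝ) ≤ E * (2 * ((B : ℝ) ^ (1 / 2 : ℝ) * (H : ℝ) ^ (1 / 2 : ℝ))) := by
    refine mul_le_mul_of_nonneg_left ?_ hE
    rw [h5] at h4
    linarith
  have h8 : ((Nat.log 2 ((B * H) ^ E) : ℕ) : ℝ) * (1 / 2) ≤ ((Nat.log 2 ((B * H) ^ E) : ℕ) : ℝ) * Real.log 2 := by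
    refine mul_le_mul_of_nonneg_left ?_ (by positivity)
    linarith
  push_cast
  have h9 : (0 : ℝ) ≤ 4 * E * (B : ℝ) ^ (1 / 2 : ℝ) := by positivity
  nlinarith

private theorem cnt1 (Z : Finset ℝ) (Cs : ℝ → ℝ) (ε : ℝ) (hε0 : 0 < ε) (E B : ℕ) (hB : 1 ≤ B) (hε : E * ε ≤ 1) (hε1 : ε ≤ 1)
    (C₁ : ℝ) (hC₁ : 0 ≤ C₁) (hCs : ∀ t ∈ Z, 0 ≤ Cs t)
    (hstr : ∀ t ∈ Z, ∀ s w X : ℝ, 1 ≤ X → 0 ≤ w → ∀ T : Finset (ℤ × ℤ),
      (∀ P ∈ T, |(P.1 : ℝ)| ≤ X ∧ |(P.2 : ℝ) - t * P.1 - s| ≤ w) → (T.card : ℝ) ≤ Cs t * (X ^ ε + w * X)) :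
    ∃ C : ℝ, 0 ≤ C ∧ ∀ H : ℕ, 1 ≤ H → ∀ (s : ℝ → ℝ) (T : Finset (ℤ × ℤ)),
      (∀ P ∈ T, P.1 ≠ 0 ∧ |(P.1 : ℝ)| ≤ ((B * H : ℕ) : ℝ) ^ E ∧
        ∃ t ∈ Z, |(P.2 : ℝ) - t * P.1 - s t| ≤ C₁ * (H : ℝ) ^ 2 / |(P.1 : ℝ)|) →
      (T.card : ℝ) ≤ C * (H : ℝ) ^ (5 / 2 : ℝ) := by
  classical
  obtain ⟨CK, hCK, hK⟩ := Kbd E B hB
  have hS0 : 0 ≤ ∑ t ∈ Z, Cs t := Finset.sum_nonneg hCs
  refine ⟨(∑ t ∈ Z, Cs t) * CK * (2 * B + 2 * C₁), by positivity, ?_⟩
  intro H hH s T hT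
  have hH1 : (1 : ℝ) ≤ H := by exact_mod_cast hH
  have hB1 : (1 : ℝ) ≤ B := by exact_mod_cast hB
  have hBH : 0 < B * H := Nat.mul_pos hB hH
  set K := Nat.log 2 ((B * H) ^ E) + 1 with hKdef
  set Y : ℝ → ℕ → Finset (ℤ × ℤ) := fun t k => T.filter fun P => |(P.1 : ℝ)| ≤ (2 : ℝ) ^ (k + 1) ∧
    |(P.2 : ℝ) - t * P.1 - s t| ≤ C₁ * (H : ℝ) ^ 2 / (2 : ℝ) ^ k with hY
  have hsub : T ⊆ Z.biUnion fun t => (Finset.range K).biUnion fun k => Y t k := by
    intro P hP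
    obtain ⟨h0, h1, t, ht, h2⟩ := hT P hP
    have hn0 : P.1.natAbs ≠ 0 := Int.natAbs_ne_zero.2 h0
    have habs : |(P.1 : ℝ)| = ((P.1.natAbs : ℕ) : ℝ) := by
      rw [Nat.cast_natAbs, Int.cast_abs]
    have h3 : P.1.natAbs ≤ (B * H) ^ E := by
      rw [habs] at h1
      exact_mod_cast h1
    have h4 : 2 ^ Nat.log 2 P.1.natAbs ≤ P.1.natAbs := Nat.pow_log_le_self 2 hn0
    have h5 : P.1.natAbs < 2 ^ (Nat.log 2 P.1.natAbs + 1) := Nat.lt_pow_succ_log_self (by norm_num) _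
    have h6 : Nat.log 2 P.1.natAbs ≤ Nat.log 2 ((B * H) ^ E) := Nat.log_mono_right h3
    simp only [Finset.mem_biUnion]
    refine ⟨t, ht, Nat.log 2 P.1.natAbs, Finset.mem_range.2 (by omega), ?_⟩
    rw [hY]
    simp only [Finset.mem_filter]
    refine ⟨hP, ?_, ?_⟩
    · rw [habs]
      exact_mod_cast h5.le
    · refine h2.trans ?_
      rw [habs]
      refine div_le_div_of_nonneg_left (by positivity) (by positivity) ?_
      exact_mod_cast h4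
  have hcard : ∀ t ∈ Z, ∀ k ∈ Finset.range K, ((Y t k).card : ℝ) ≤ Cs t * ((2 * B + 2 * C₁) * (H : ℝ) ^ 2) := by
    intro t ht k hk
    have hk' : k ≤ Nat.log 2 ((B * H) ^ E) := by
      have := Finset.mem_range.1 hk
      omega
    have h1 := hstr t ht (s t) (C₁ * (H : ℝ) ^ 2 / (2 : ℝ) ^ k) ((2 : ℝ) ^ (k + 1)) (one_le_pow₀ (by norm_num))
      (by positivity) (Y t k) (by
        intro P hP
        rw [hY] at hP
        simp only [Finset.mem_filter] at hP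
        exact hP.2)
    refine h1.trans (mul_le_mul_of_nonneg_left ?_ (hCs t ht))
    have h2 : C₁ * (H : ℝ) ^ 2 / (2 : ℝ) ^ k * (2 : ℝ) ^ (k + 1) = 2 * C₁ * (H : ℝ) ^ 2 := by
      have h2' : (2 : ℝ) ^ k ≠ 0 := by positivity
      rw [pow_succ, div_mul_eq_mul_div, div_eq_iff h2']
      ring
    have h3 : (2 : ℝ) ^ k ≤ ((B * H : ℕ) : ℝ) ^ E := by
      have h4 : 2 ^ k ≤ (B * H) ^ E := (Nat.pow_le_pow_right (by norm_num) hk').trans (Nat.pow_log_le_self 2 (by positivity))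
      exact_mod_cast h4
    have hBHr : (1 : ℝ) ≤ ((B * H : ℕ) : ℝ) := by exact_mod_cast hBH
    have h5 : ((2 : ℝ) ^ (k + 1)) ^ ε ≤ 2 * ((B : ℝ) * H) := by
      have h6 : (2 : ℝ) ^ (k + 1) ≤ 2 * ((B * H : ℕ) : ℝ) ^ E := by
        rw [pow_succ]
        linarith
      have h7 : ((2 : ℝ) ^ (k + 1)) ^ ε ≤ (2 * ((B * H : ℕ) : ℝ) ^ E) ^ ε :=
        Real.rpow_le_rpow (by positivity) h6 hε0.le
      refine h7.trans ?_
      rw [Real.mul_rpow (by norm_num) (by positivity)]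
      have h8 : (2 : ℝ) ^ ε ≤ 2 := by
        have := Real.rpow_le_rpow_of_exponent_le (by norm_num : (1 : ℝ) ≤ 2) hε1
        rwa [Real.rpow_one] at this
      have h9 : (((B * H : ℕ) : ℝ) ^ E) ^ ε ≤ ((B * H : ℕ) : ℝ) := by
        rw [← Real.rpow_natCast, ← Real.rpow_mul (by positivity)]
        have := Real.rpow_le_rpow_of_exponent_le hBHr hε
        rwa [Real.rpow_one] at this
      have h10 : ((B * H : ℕ) : ℝ) = (B : ℝ) * H := by push_cast; ring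
      rw [h10] at h9 ⊢
      exact mul_le_mul h8 h9 (by positivity) (by norm_num)
    rw [h2]
    have h11 : (B : ℝ) * H ≤ B * (H : ℝ) ^ 2 := by
      refine mul_le_mul_of_nonneg_left ?_ (by positivity)
      nlinarith
    linarith
  have h1 : T.card ≤ ∑ t ∈ Z, ∑ k ∈ Finset.range K, (Y t k).card := by
    refine (Finset.card_le_card hsub).trans (Finset.card_biUnion_le.trans ?_)
    exact Finset.sum_le_sum fun t _ => Finset.card_biUnion_le
  have h2 : (T.card : ℝ) ≤ ∑ t ∈ Z, ∑ k ∈ Finset.range K, ((Y t k).card : ℝ) := by exact_mod_cast h1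
  have h3 : ∑ t ∈ Z, ∑ k ∈ Finset.range K, ((Y t k).card : ℝ) ≤
      ∑ t ∈ Z, (K : ℝ) * (Cs t * ((2 * B + 2 * C₁) * (H : ℝ) ^ 2)) := by
    refine Finset.sum_le_sum fun t ht => ?_
    refine (Finset.sum_le_sum fun k hk => hcard t ht k hk).trans ?_
    rw [Finset.sum_const, Finset.card_range, nsmul_eq_mul]
  have h4 : ∑ t ∈ Z, (K : ℝ) * (Cs t * ((2 * B + 2 * C₁) * (H : ℝ) ^ 2)) =
      (∑ t ∈ Z, Cs t) * K * ((2 * B + 2 * C₁) * (H : ℝ) ^ 2) := by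
    rw [Finset.sum_mul, Finset.sum_mul]
    refine Finset.sum_congr rfl fun t _ => ?_
    ring
  have h5 : (K : ℝ) ≤ CK * (H : ℝ) ^ (1 / 2 : ℝ) := hK H hH
  have h6 : (H : ℝ) ^ (5 / 2 : ℝ) = (H : ℝ) ^ (1 / 2 : ℝ) * (H : ℝ) ^ 2 := by
    rw [← Real.rpow_natCast, ← Real.rpow_add (by positivity)]
    norm_num
  rw [h6]
  calc (T.card : ℝ) ≤ (∑ t ∈ Z, Cs t) * K * ((2 * B + 2 * C₁) * (H : ℝ) ^ 2) := by
        rw [← h4]
        exact h2.trans h3
    _ ≤ (∑ t ∈ Z, Cs t) * (CK * (H : ℝ) ^ (1 / 2 : ℝ)) * ((2 * B + 2 * C₁) * (H : ℝ) ^ 2) := by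
        refine mul_le_mul_of_nonneg_right (mul_le_mul_of_nonneg_left h5 hS0) (by positivity)
    _ = _ := by ring

private theorem chart (n E B : ℕ) (hn : 2 ≤ n) (hB : 2 ≤ B) (f : ℕ → ℕ → ℤ) (hnz : Nz n f) (c0 : ℝ) (hc0 : 0 < c0)
    (hgd : Gd n c0 f) : ∃ A C : ℝ, 1 ≤ A ∧ 0 ≤ C ∧ ∀ H : ℕ, 1 ≤ H → ∀ (g : ℕ → ℕ → ℤ) (T : Finset (ℤ × ℤ)),
      (∀ P ∈ T, ∃ e : ℕ → ℕ → ℤ, (∀ a b, a + b = n → f a b = e a b) ∧ (∀ a b, a + b = n - 1 → e a b = g a b) ∧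
        Bs n (2 * B) H e ∧ |P.2| ≤ |P.1| ∧ A * H ≤ |(P.1 : ℝ)| ∧ |(P.1 : ℝ)| ≤ ((B * H : ℕ) : ℝ) ^ E ∧
        ev n e P.1 P.2 = 0) →
      (T.card : ℝ) ≤ C * (H : ℝ) ^ (5 / 2 : ℝ) := by
  classical
  have hB1 : (1 : ℝ) ≤ 2 * B := by
    have : (2 : ℝ) ≤ B := by exact_mod_cast hB
    linarith
  obtain ⟨A, C₁, hA, hC₁, hnear⟩ := near n hn (2 * B) c0 hB1 hc0
  -- the polynomial is nonzero
  have hfm : fm f n ≠ 0 := by
    intro h0
    have h1 := hnz 1 0 (Or.inl one_ne_zero)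
    apply h1
    refine Finset.sum_eq_zero fun j hj => ?_
    have h2 : (fm f n).coeff j = 0 := by rw [h0]; simp
    rw [fm_coeff, if_pos (by have := Finset.mem_range.1 hj; omega)] at h2
    rw [h2, zero_mul]
  -- real roots are irrational
  have hirr : ∀ t : ℝ, Polynomial.aeval t (fm f n) = 0 → Irrational t := by
    intro t ht
    rw [irrational_iff_ne_rational]
    intro p q hq hpq
    have hq' : (q : ℝ) ≠ 0 := by exact_mod_cast hq
    apply hnz q p (Or.inl hq)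
    have h1 : ((∑ j ∈ Finset.range (n + 1), f (n - j) j * (q ^ (n - j) * p ^ j) : ℤ) : ℝ) =
        (q : ℝ) ^ n * Polynomial.aeval t (fm f n) := by
      rw [fm_aeval, Finset.mul_sum]
      push_cast
      refine Finset.sum_congr rfl fun j hj => ?_
      have hj' : j ≤ n := by
        have := Finset.mem_range.1 hj
        omega
      rw [hpq, div_pow, show (q : ℝ) ^ n = (q : ℝ) ^ (n - j) * (q : ℝ) ^ j by rw [← pow_add]; congr 1; omega]
      field_simp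
    rw [ht, mul_zero] at h1
    exact_mod_cast h1
  set ε : ℝ := 1 / (4 * E + 4) with hε
  have hε0 : 0 < ε := by positivity
  have hE : (0 : ℝ) ≤ E := by positivity
  have hε1 : ε ≤ 1 := by
    rw [hε, div_le_one (by positivity)]
    linarith
  have hεE : E * ε ≤ 1 := by
    rw [hε, mul_one_div, div_le_one (by positivity)]
    linarith
  have hst : ∀ t : ℝ, ∃ C : ℝ, 0 ≤ C ∧ (Polynomial.aeval t (fm f n) = 0 → ∀ s w X : ℝ, 1 ≤ X → 0 ≤ w →
      ∀ T : Finset (ℤ × ℤ), (∀ P ∈ T, |(P.1 : ℝ)| ≤ X ∧ |(P.2 : ℝ) - t * P.1 - s| ≤ w) →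
        (T.card : ℝ) ≤ C * (X ^ ε + w * X)) := by
    intro t
    by_cases ht : Polynomial.aeval t (fm f n) = 0
    · obtain ⟨c, hc, hR⟩ := roth (fm f n) hfm t (hirr t ht) ht ε hε0
      obtain ⟨C, hC, h⟩ := strip t ε c hc hε0 hR
      exact ⟨C, hC, fun _ => h⟩
    · exact ⟨0, le_refl _, fun h => absurd h ht⟩
  choose Cs hCs0 hCs using hst
  set Z : Finset ℝ := ((fm f n).aroots ℝ).toFinset with hZ
  have hmem : ∀ t : ℝ, t ∈ Z ↔ Polynomial.aeval t (fm f n) = 0 := by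
    intro t
    rw [hZ, Multiset.mem_toFinset, Polynomial.mem_aroots]
    exact ⟨fun h => h.2, fun h => ⟨hfm, h⟩⟩
  obtain ⟨C, hC, hcnt⟩ := cnt1 Z Cs ε hε0 E B (by omega) hεE hε1 C₁ hC₁ (fun t _ => hCs0 t)
    (fun t ht => hCs t ((hmem t).1 ht))
  refine ⟨A, C, hA, hC, ?_⟩
  intro H hH g T hT
  refine hcnt H hH (fun t => - (Polynomial.aeval t (fm g (n - 1)) / Polynomial.aeval t (Polynomial.derivative (fm f n)))) T ?_
  intro P hP
  obtain ⟨e, h1, h2, h3, h4, h5, h6, h7⟩ := hT P hP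
  have hH1 : (1 : ℝ) ≤ H := by exact_mod_cast hH
  have hP0 : P.1 ≠ 0 := by
    intro h0
    rw [h0] at h5
    simp only [Int.cast_zero, abs_zero] at h5
    nlinarith
  obtain ⟨t, ht, h8⟩ := hnear e H hH1 h3 (gd_congr h1 hgd) P.1 P.2 h4 h5 h7
  have hfe : fm e n = fm f n := fm_cg fun a b h => (h1 a b h).symm
  have hfg : fm e (n - 1) = fm g (n - 1) := fm_cg h2
  rw [hfe] at ht h8
  rw [hfg] at h8
  refine ⟨hP0, h6, t, (hmem t).2 ht, ?_⟩
  simp only [sub_neg_eq_add]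
  exact h8

theorem mid (n j : ℕ) (hn : 5 ≤ n) (hj : 3 ≤ j) (hjn : j + 2 ≤ n) (G : MvPolynomial (Fin 2) ℤ) (hG : G.totalDegree ≤ n)
    (hirr : Irreducible (map (Int.castRingHom ℚ) (homogeneousComponent n G))) (B E : ℕ) (hB : 2 ≤ B) :
    ∃ A C : ℝ, 1 ≤ A ∧ 0 ≤ C ∧ ∀ H : ℕ, 1 ≤ H → ∀ G' : MvPolynomial (Fin 2) ℤ, G'.totalDegree ≤ n →
      homogeneousComponent n G' = homogeneousComponent n G →
      (∀ a b, a + b ≤ n → |ar G' a b| ≤ (B : ℤ) * (H : ℤ) ^ (n - a - b)) → ∀ T : Finset (Ix j → ℤ),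
      (∀ c ∈ T, (∀ p, |c p| ≤ (H : ℤ)) ∧ ∃ P : Fin 2 → ℤ, eval P (G' + pol c) = 0 ∧
        A * H ≤ max |(P 0 : ℝ)| |(P 1 : ℝ)| ∧ max |(P 0 : ℝ)| |(P 1 : ℝ)| ≤ ((B * H : ℕ) : ℝ) ^ E) →
      (T.card : ℝ) ≤ C * (H : ℝ) ^ (5 / 2 : ℝ) * (2 * (H : ℝ) + 1) ^ (Fintype.card (Ix j) - (j + 1)) := by
  classical
  obtain ⟨A₀, hA₀, hgd, hgds⟩ := gd_of (by omega : 2 ≤ n) hirr 1 one_pos
  have hc0 : (0 : ℝ) < 1 / A₀ := by positivity
  have hnz := nz_of (by omega : 2 ≤ n) hirr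
  have hnzs : Nz n (sw (ar G)) := by
    intro v w hvw
    have h1 := hnz w v hvw.symm
    intro h0
    apply h1
    rw [← h0, ← Finset.sum_range_reflect]
    refine Finset.sum_congr rfl fun k hk => ?_
    have hk' : k ≤ n := by
      have := Finset.mem_range.1 hk
      omega
    have e1 : n + 1 - 1 - k = n - k := by omega
    have e2 : n - (n - k) = k := by omega
    rw [e1, e2]
    show ar G k (n - k) * (w ^ k * v ^ (n - k)) = sw (ar G) (n - k) k * (v ^ (n - k) * w ^ k)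
    unfold sw
    ring
  obtain ⟨A₁, C₁, hA₁, hC₁, h₁⟩ := chart n E B (by omega) hB (ar G) hnz _ hc0 hgd
  obtain ⟨A₂, C₂, hA₂, hC₂, h₂⟩ := chart n E B (by omega) hB (sw (ar G)) hnzs _ hc0 hgds
  obtain ⟨Cd, hCd, hdig⟩ := dig j (by omega)
  refine ⟨max A₁ A₂, (C₁ + C₂) * (Cd * 2 ^ j), hA₁.trans (le_max_left _ _), by positivity, ?_⟩
  intro H hH G' hG' hhom hbd T hT
  have hH1 : (1 : ℝ) ≤ H := by exact_mod_cast hH
  -- arrays
  have htop : ∀ a b, a + b = n → ar G a b = ar G' a b := by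
    intro a b hab
    have h1 := congrArg (coeff (Finsupp.single (0 : Fin 2) a + Finsupp.single 1 b)) hhom
    rw [coeff_homogeneousComponent, coeff_homogeneousComponent] at h1
    have h2 : (Finsupp.single (0 : Fin 2) a + Finsupp.single 1 b).degree = n := by
      rw [Finsupp.degree_eq_sum, Fin.sum_univ_two]
      simp [hab]
    rw [if_pos h2, if_pos h2] at h1
    exact h1.symm
  have hcoz : ∀ (c : Ix j → ℤ) (a b : ℕ), n - 1 ≤ a + b → co c a b = 0 := by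
    intro c a b hab
    unfold co
    rw [dif_neg (by omega)]
  have har : ∀ (c : Ix j → ℤ) (a b : ℕ), ar (G' + pol c) a b = ar G' a b + co c a b := by
    intro c a b
    rw [ar_add, ar_pol]
  have hbs : ∀ c ∈ T, Bs n (2 * B) H (ar (G' + pol c)) := by
    intro c hc a b hab
    have h1 := hbd a b hab
    have h2 : |co c a b| ≤ (B : ℤ) * (H : ℤ) ^ (n - a - b) := by
      unfold co
      split_ifs with h
      · refine ((hT c hc).1 _).trans ?_
        have h3 : (H : ℤ) ^ 1 ≤ (H : ℤ) ^ (n - a - b) := pow_le_pow_right₀ (by exact_mod_cast hH) (by omega)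
        have h4 : (1 : ℤ) ≤ B := by exact_mod_cast (by omega : 1 ≤ B)
        have h5 : (0 : ℤ) ≤ (H : ℤ) ^ (n - a - b) := by positivity
        nlinarith
      · simp only [abs_zero]
        positivity
    have h3 : |ar (G' + pol c) a b| ≤ 2 * (B : ℤ) * (H : ℤ) ^ (n - a - b) := by
      rw [har]
      refine (abs_add_le _ _).trans ?_
      linarith
    have h4 : ((|ar (G' + pol c) a b| : ℤ) : ℝ) ≤ ((2 * (B : ℤ) * (H : ℤ) ^ (n - a - b) : ℤ) : ℝ) := by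
      exact_mod_cast h3
    push_cast at h4
    exact h4
  -- choose a point for every vector
  have hch : ∀ c : Ix j → ℤ, ∃ P : ℤ × ℤ, c ∈ T → (ev n (ar (G' + pol c)) P.1 P.2 = 0 ∧
      ev j (co c) P.1 P.2 = - ev n (ar G') P.1 P.2 ∧
      max A₁ A₂ * H ≤ max |(P.1 : ℝ)| |(P.2 : ℝ)| ∧ max |(P.1 : ℝ)| |(P.2 : ℝ)| ≤ ((B * H : ℕ) : ℝ) ^ E) := by
    intro c
    by_cases hc : c ∈ T
    · obtain ⟨P, hP, h1, h2⟩ := (hT c hc).2
      refine ⟨(P 0, P 1), fun _ => ⟨?_, ?_, h1, h2⟩⟩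
      · have h3 : (G' + pol c).totalDegree ≤ n :=
          (totalDegree_add _ _).trans (max_le hG' ((Pool.Agent.H8.AA.pol_deg c).trans (by omega)))
        show ev n (ar (G' + pol c)) (P 0) (P 1) = 0
        rw [ar_ev h3 P, hP]
      · show ev j (co c) (P 0) (P 1) = - ev n (ar G') (P 0) (P 1)
        rw [ar_ev hG' P, ← Pool.Agent.H8.AA.pol_eval]
        rw [map_add] at hP
        linarith
    · exact ⟨(0, 0), fun h => absurd h hc⟩
  choose F hF using hch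
  set S := T.image F with hS
  -- number of vectors for one point
  have hK0 : (0 : ℝ) ≤ (2 * (H : ℝ) + 1) ^ (Fintype.card (Ix j) - (j + 1)) := by positivity
  have hfib : ∀ Q ∈ S, (((T.filter fun c => F c = Q).card : ℕ) : ℝ) ≤
      Cd * 2 ^ j * (2 * (H : ℝ) + 1) ^ (Fintype.card (Ix j) - (j + 1)) := by
    intro Q hQ
    rw [hS, Finset.mem_image] at hQ
    obtain ⟨c₀, hc₀, hc₀Q⟩ := hQ
    have h1 := (hF c₀ hc₀).2.2.1
    rw [hc₀Q] at h1
    have hmx : (H : ℝ) ≤ max |(Q.1 : ℝ)| |(Q.2 : ℝ)| := by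
      have h2 : (1 : ℝ) ≤ max A₁ A₂ := hA₁.trans (le_max_left _ _)
      nlinarith
    have hne : Q.1 ≠ 0 ∨ Q.2 ≠ 0 := by
      by_contra hcon
      push Not at hcon
      rw [hcon.1, hcon.2] at hmx
      simp only [Int.cast_zero, abs_zero, max_self] at hmx
      linarith
    have h2 := hdig H hH Q.1 Q.2 (- ev n (ar G') Q.1 Q.2) hne (T.filter fun c => F c = Q) (by
      intro c hc
      rw [Finset.mem_filter] at hc
      refine ⟨(hT c hc.1).1, ?_⟩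
      have h3 := (hF c hc.1).2.1
      rw [hc.2] at h3
      exact h3)
    refine h2.trans ?_
    refine mul_le_mul_of_nonneg_right (mul_le_mul_of_nonneg_left ?_ hCd) hK0
    have h3 : (H : ℝ) / max |(Q.1 : ℝ)| |(Q.2 : ℝ)| ≤ 1 := div_le_one_of_le₀ hmx (by positivity)
    have h4 : 0 ≤ (H : ℝ) / max |(Q.1 : ℝ)| |(Q.2 : ℝ)| := by positivity
    exact pow_le_pow_left₀ (by linarith) (by linarith) j
  -- number of points
  have hpt : (S.card : ℝ) ≤ (C₁ + C₂) * (H : ℝ) ^ (5 / 2 : ℝ) := by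
    set S₁ := S.filter fun Q => |Q.2| ≤ |Q.1| with hS₁
    set S₂ := S.filter fun Q => ¬ |Q.2| ≤ |Q.1| with hS₂
    have hsum : S.card = S₁.card + S₂.card := by
      rw [hS₁, hS₂]
      exact (Finset.card_filter_add_card_filter_not _).symm
    have hb1 : (S₁.card : ℝ) ≤ C₁ * (H : ℝ) ^ (5 / 2 : ℝ) := by
      refine h₁ H hH (ar G') S₁ ?_
      intro Q hQ
      rw [hS₁, Finset.mem_filter, hS, Finset.mem_image] at hQ
      obtain ⟨⟨c, hc, hcQ⟩, hle⟩ := hQ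
      obtain ⟨g1, g2, g3, g4⟩ := hF c hc
      rw [hcQ] at g1 g2 g3 g4
      have hle' : |(Q.2 : ℝ)| ≤ |(Q.1 : ℝ)| := by exact_mod_cast hle
      rw [max_eq_left hle'] at g3 g4
      refine ⟨ar (G' + pol c), ?_, ?_, hbs c hc, hle, ?_, g4, g1⟩
      · intro a b hab
        rw [har, hcoz c a b (by omega), add_zero]
        exact htop a b hab
      · intro a b hab
        rw [har, hcoz c a b (by omega), add_zero]
      · refine le_trans ?_ g3
        exact mul_le_mul_of_nonneg_right (le_max_left _ _) (by positivity)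
    have hb2 : (S₂.card : ℝ) ≤ C₂ * (H : ℝ) ^ (5 / 2 : ℝ) := by
      have h3 : (S₂.image Prod.swap).card = S₂.card := Finset.card_image_of_injective _ Prod.swap_injective
      rw [← h3]
      refine h₂ H hH (sw (ar G')) (S₂.image Prod.swap) ?_
      intro Q' hQ'
      rw [Finset.mem_image] at hQ'
      obtain ⟨Q, hQ, rfl⟩ := hQ'
      rw [hS₂, Finset.mem_filter, hS, Finset.mem_image] at hQ
      obtain ⟨⟨c, hc, hcQ⟩, hle⟩ := hQ
      push Not at hle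
      obtain ⟨g1, g2, g3, g4⟩ := hF c hc
      rw [hcQ] at g1 g2 g3 g4
      have hle' : |(Q.1 : ℝ)| ≤ |(Q.2 : ℝ)| := by exact_mod_cast hle.le
      rw [max_eq_right hle'] at g3 g4
      refine ⟨sw (ar (G' + pol c)), ?_, ?_, ?_, ?_, ?_, ?_, ?_⟩
      · intro a b hab
        show ar G b a = ar (G' + pol c) b a
        rw [har, hcoz c b a (by omega), add_zero]
        exact htop b a (by omega)
      · intro a b hab
        show ar (G' + pol c) b a = ar G' b a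
        rw [har, hcoz c b a (by omega), add_zero]
      · intro a b hab
        have h4 := hbs c hc b a (by omega)
        have h5 : n - b - a = n - a - b := by omega
        rw [h5] at h4
        exact h4
      · exact hle.le
      · refine le_trans ?_ g3
        exact mul_le_mul_of_nonneg_right (le_max_right _ _) (by positivity)
      · exact g4
      · show ev n (sw (ar (G' + pol c))) Q.2 Q.1 = 0
        rw [ev_sw]
        exact g1
    rw [hsum]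
    push_cast
    linarith
  have hTc : T.card = ∑ Q ∈ S, (T.filter fun c => F c = Q).card := by
    rw [hS]
    exact Finset.card_eq_sum_card_image F T
  have hTr : (T.card : ℝ) = ∑ Q ∈ S, (((T.filter fun c => F c = Q).card : ℕ) : ℝ) := by
    rw [hTc]
    push_cast
    rfl
  rw [hTr]
  refine (Finset.sum_le_sum hfib).trans ?_
  rw [Finset.sum_const, nsmul_eq_mul]
  calc (S.card : ℝ) * (Cd * 2 ^ j * (2 * (H : ℝ) + 1) ^ (Fintype.card (Ix j) - (j + 1)))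
      ≤ ((C₁ + C₂) * (H : ℝ) ^ (5 / 2 : ℝ)) * (Cd * 2 ^ j * (2 * (H : ℝ) + 1) ^ (Fintype.card (Ix j) - (j + 1))) :=
        mul_le_mul_of_nonneg_right hpt (by positivity)
    _ = _ := by ring

end Pool.Agent.H88.TS
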