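import Pool.Agent.H88.TS.Def
import Pool.Agent.H88.A2.Gd
import Pool.Agent.H72.ES.BridgeB
import Pool.Agent.H72.ES.Dens

/-! # [H88 TS FLX] Curves with a flex at infinity are few

PROOF. `contact`: if some line has contact of order `≥ 3` at a point at infinity then for some `θ` with `φ_n(θ) = 0` (`φ_k` = terms of degree `k` at `(1,θ)`) the flex polynomial
vanishes at `θ`. For `j + 3 ≤ n` the coefficients of `X^n, X^(n-1), X^(n-2)` of `F(X, θX+β)` are those of `G`, so `Flx n (G + pol c)` holds (`low`). For `j + 2 ≥ n`: `fib` with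
`J = {p | p.1 + p.2 = n - 2}`, `|J| = n - 1 ≥ 3`, `M = 1`: the terms of degree `n-2` are determined by those of degree `n-1, n` (`Pool.Agent.H72.ES.flex_determined`: `θ` has degree `n` over `ℚ`). -/

namespace Pool.Agent.H88.TS

open MvPolynomial Pool.Agent.H8.AA Pool.Agent.H88.A2

/-- restriction to a line -/
private theorem aeval_line {n : ℕ} {F : MvPolynomial (Fin 2) ℤ} (hd : F.totalDegree ≤ n) (θ β : ℝ) :
    MvPolynomial.aeval ![Polynomial.X, Polynomial.C θ * Polynomial.X + Polynomial.C β] F =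
      ∑ i ∈ Finset.range (n + 1), ∑ j ∈ Finset.range (n + 1 - i),
        Polynomial.C (Pool.Agent.H72.ES.tc n (Pool.Agent.H72.ES.arrM F) θ i j * β ^ j) *
          (Polynomial.X : Polynomial ℝ) ^ (n - i - j) := by
  rw [← Pool.Agent.H72.ES.line_poly, ← Pool.Agent.H72.ES.eval₂_arrM hd, MvPolynomial.aeval_def]
  congr 1

private theorem contact {n : ℕ} (hn : 4 ≤ n) {F : MvPolynomial (Fin 2) ℤ} (hd : F.totalDegree ≤ n) (h : ¬ Flx n F) :
    ∃ θ : ℝ, Polynomial.aeval θ (Pool.Agent.H72.ES.part n 0 (Pool.Agent.H72.ES.arrM F)) = 0 ∧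
      Polynomial.aeval θ (Pool.Agent.H72.ES.flexP n (Pool.Agent.H72.ES.arrM F)) = 0 := by
  unfold Flx at h
  push Not at h
  obtain ⟨θ, β, hlt⟩ := h
  rw [aeval_line hd] at hlt
  have hc : ∀ s ≤ 2, ∑ i ∈ Finset.range (s + 1),
      Pool.Agent.H72.ES.tc n (Pool.Agent.H72.ES.arrM F) θ i (s - i) * β ^ (s - i) = 0 := by
    intro s hs
    rw [← Pool.Agent.H72.ES.coeff_line n
      (fun i j => Pool.Agent.H72.ES.tc n (Pool.Agent.H72.ES.arrM F) θ i j * β ^ j) s (by omega)]
    exact Polynomial.coeff_eq_zero_of_natDegree_lt (by omega)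
  have c0 := hc 0 (by omega)
  have c1 := hc 1 (by omega)
  have c2 := hc 2 le_rfl
  rw [Finset.sum_range_succ, Finset.sum_range_zero] at c0
  rw [Finset.sum_range_succ, Finset.sum_range_succ, Finset.sum_range_zero] at c1
  rw [Finset.sum_range_succ, Finset.sum_range_succ, Finset.sum_range_succ, Finset.sum_range_zero] at c2
  simp only [Nat.sub_zero, Nat.sub_self, pow_zero, mul_one, zero_add, pow_one] at c0 c1 c2
  have e21 : 2 - 1 = 1 := rfl
  rw [e21, pow_one] at c2
  refine ⟨θ, ?_, ?_⟩
  · rw [Pool.Agent.H72.ES.part_zero, ← Pool.Agent.H72.ES.tc_zero_zero]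
    exact c0
  · rw [Pool.Agent.H72.ES.flexP_eval]
    unfold Pool.Agent.H72.ES.flexv
    have h10 : Pool.Agent.H72.ES.tc n (Pool.Agent.H72.ES.arrM F) θ 1 0 =
        - (Pool.Agent.H72.ES.tc n (Pool.Agent.H72.ES.arrM F) θ 0 1 * β) := by linarith
    rw [h10]
    linear_combination (2 * Pool.Agent.H72.ES.tc n (Pool.Agent.H72.ES.arrM F) θ 0 1 ^ 2) * c2

private theorem low {n j : ℕ} {G : MvPolynomial (Fin 2) ℤ} (hj : j + 3 ≤ n) (hf : Flx n G) (c : Ix j → ℤ) :
    Flx n (G + pol c) := by
  intro θ β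
  have h1 := hf θ β
  have h2 : (MvPolynomial.aeval ![Polynomial.X, Polynomial.C θ * Polynomial.X + Polynomial.C β] (pol c) :
      Polynomial ℝ).natDegree ≤ j := by
    rw [aeval_line (Pool.Agent.H8.AA.pol_deg c), Polynomial.natDegree_le_iff_coeff_eq_zero]
    intro N hN
    exact Pool.Agent.H72.ES.coeff_line_big j
      (fun a b => Pool.Agent.H72.ES.tc j (Pool.Agent.H72.ES.arrM (pol c)) θ a b * β ^ b) N hN
  rw [map_add, Polynomial.natDegree_add_eq_left_of_natDegree_lt (by omega)]
  exact h1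

private theorem arrM_eq (F : MvPolynomial (Fin 2) ℤ) (a b : ℕ) : Pool.Agent.H72.ES.arrM F a b = ar F a b := rfl

private theorem arrM_add {j : ℕ} (G : MvPolynomial (Fin 2) ℤ) (c : Ix j → ℤ) (a b : ℕ) :
    Pool.Agent.H72.ES.arrM (G + pol c) a b = Pool.Agent.H72.ES.arrM G a b + co c a b := by
  rw [arrM_eq, ar_add, ar_pol, arrM_eq]

private theorem part_congr {n k : ℕ} {F F' : ℕ → ℕ → ℤ} (hk : k ≤ n) (h : ∀ a b, a + b = n - k → F a b = F' a b) :
    Pool.Agent.H72.ES.part n k F = Pool.Agent.H72.ES.part n k F' := by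
  unfold Pool.Agent.H72.ES.part
  refine Finset.sum_congr rfl fun b hb => ?_
  have := Finset.mem_range.1 hb
  rw [h (n - k - b) b (by omega)]

private theorem part_inj {n k : ℕ} {F F' : ℕ → ℕ → ℤ} (hk : k ≤ n)
    (h : Pool.Agent.H72.ES.part n k F = Pool.Agent.H72.ES.part n k F') (a b : ℕ) (hab : a + b = n - k) :
    F a b = F' a b := by
  have hc : ∀ E : ℕ → ℕ → ℤ, (Pool.Agent.H72.ES.part n k E).coeff b = E a b := by
    intro E
    unfold Pool.Agent.H72.ES.part
    simp only [Polynomial.finsetSum_coeff, Polynomial.coeff_C_mul, Polynomial.coeff_X_pow]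
    rw [Finset.sum_eq_single b]
    · have h1 : n - k - b = a := by omega
      rw [if_pos rfl, mul_one, h1]
    · intro l _ hl
      rw [if_neg (fun h2 => hl h2.symm), mul_zero]
    · intro h1
      exact absurd (Finset.mem_range.2 (by omega)) h1
  rw [← hc F, ← hc F', h]

private theorem deg_add {n j : ℕ} {G : MvPolynomial (Fin 2) ℤ} (hj : j < n) (hd : G.totalDegree ≤ n) (c : Ix j → ℤ) :
    (G + pol c).totalDegree ≤ n :=
  (MvPolynomial.totalDegree_add _ _).trans (max_le hd ((Pool.Agent.H8.AA.pol_deg c).trans (by omega)))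

private theorem high {n j : ℕ} {G : MvPolynomial (Fin 2) ℤ} (h : Hy n j G) (c c' : Ix j → ℤ)
    (hc : ¬ Flx n (G + pol c)) (hc' : ¬ Flx n (G + pol c'))
    (he : ∀ p : Ix j, p.1.1.val + p.1.2.val ≠ n - 2 → c' p = c p) : c' = c := by
  have hn := h.hn
  have hjn := h.hjn
  obtain ⟨θ, hθ, hfl⟩ := contact (by omega) (deg_add h.hjn h.deg c) hc
  obtain ⟨θ', hθ', hfl'⟩ := contact (by omega) (deg_add h.hjn h.deg c') hc'
  obtain ⟨ha, hirr⟩ := Pool.Agent.H72.ES.leadQ_of_irreducible (by omega) h.irr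
  have hco : ∀ a b, a + b ≠ n - 2 → co c a b = co c' a b := by
    intro a b hab
    unfold co
    split_ifs with h1
    · exact (he (ix a b h1) hab).symm
    · rfl
  have hz : ∀ (e : Ix j → ℤ) (a b : ℕ), a + b = n → co e a b = 0 := by
    intro e a b hab
    unfold co
    rw [dif_neg (by omega)]
  have h00 : ∀ e : Ix j → ℤ, Pool.Agent.H72.ES.arrM (G + pol e) 0 n = Pool.Agent.H72.ES.arrM G 0 n := by
    intro e
    rw [arrM_add, hz e 0 n (by omega), add_zero]
  have hlead : Pool.Agent.H72.ES.leadQ n (Pool.Agent.H72.ES.arrM (G + pol c)) =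
      Pool.Agent.H72.ES.leadQ n (Pool.Agent.H72.ES.arrM G) := by
    unfold Pool.Agent.H72.ES.leadQ
    refine Finset.sum_congr rfl fun b hb => ?_
    have := Finset.mem_range.1 hb
    rw [arrM_add, hz c (n - b) b (by omega), add_zero]
  have hp : ∀ k, k ≤ n → n - k ≠ n - 2 → Pool.Agent.H72.ES.part n k (Pool.Agent.H72.ES.arrM (G + pol c)) =
      Pool.Agent.H72.ES.part n k (Pool.Agent.H72.ES.arrM (G + pol c')) := by
    intro k hk hk2
    refine part_congr hk fun a b hab => ?_
    rw [arrM_add, arrM_add, hco a b (by omega)]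
  have h2 := Pool.Agent.H72.ES.flex_determined (by omega : 4 ≤ n) (Pool.Agent.H72.ES.arrM (G + pol c))
    (Pool.Agent.H72.ES.arrM (G + pol c')) (by rw [h00]; exact ha) (by rw [hlead]; exact hirr)
    (hp 0 (by omega) (by omega)) (hp 1 (by omega) (by omega)) θ θ' hθ hθ' hfl hfl'
  funext p
  by_cases hp2 : p.1.1.val + p.1.2.val = n - 2
  · have h3 := part_inj (by omega : 2 ≤ n) h2 p.1.1.val p.1.2.val hp2
    rw [arrM_add, arrM_add, co_of_le c p.2, co_of_le c' p.2] at h3
    have h4 : ix p.1.1.val p.1.2.val p.2 = p := rfl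
    rw [h4] at h3
    linarith
  · exact he p hp2

theorem flx (n j : ℕ) (G : MvPolynomial (Fin 2) ℤ) (h : Hy n j G) (H : ℕ) (T : Finset (Ix j → ℤ))
    (hT : ∀ c ∈ T, (∀ p, |c p| ≤ (H : ℤ)) ∧ ¬ Flx n (G + pol c)) :
    T.card ≤ n * (2 * H + 1) ^ (Fintype.card (Ix j) - 3) := by
  classical
  have hn := h.hn
  have hj3 := h.hj
  have hjn := h.hjn
  by_cases hj : j + 3 ≤ n
  · have hemp : T = ∅ := by
      rw [Finset.eq_empty_iff_forall_notMem]
      intro c hc
      exact (hT c hc).2 (low hj (h.flex hj) c)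
    rw [hemp, Finset.card_empty]
    exact Nat.zero_le _
  · set J : Finset (Ix j) := Finset.univ.filter fun p => p.1.1.val + p.1.2.val = n - 2 with hJ
    have h1 : T.card ≤ 1 * (2 * H + 1) ^ (Fintype.card (Ix j) - J.card) := by
      refine fib J H 1 T (fun c hc => (hT c hc).1) ?_
      intro c hc R hR
      rw [Finset.card_le_one]
      intro a ha b hb
      have key : ∀ a ∈ R, a = c := by
        intro a ha
        refine high h c a (hT c hc).2 (hT a (hR a ha).1).2 ?_
        intro p hp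
        refine (hR a ha).2 p ?_
        rw [hJ, Finset.mem_filter]
        exact fun h2 => hp h2.2
      rw [key a ha, key b hb]
    have hcard : 3 ≤ J.card := by
      have hsub : ({ix 0 (n - 2) (by omega), ix 1 (n - 3) (by omega), ix 2 (n - 4) (by omega)} : Finset (Ix j)) ⊆ J := by
        intro p hp
        rw [hJ, Finset.mem_filter]
        refine ⟨Finset.mem_univ _, ?_⟩
        simp only [Finset.mem_insert, Finset.mem_singleton] at hp
        rcases hp with rfl | rfl | rfl
        · show 0 + (n - 2) = n - 2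
          omega
        · show 1 + (n - 3) = n - 2
          omega
        · show 2 + (n - 4) = n - 2
          omega
      refine le_trans ?_ (Finset.card_le_card hsub)
      rw [Finset.card_insert_of_notMem, Finset.card_insert_of_notMem, Finset.card_singleton]
      · rw [Finset.mem_singleton]
        intro h2
        have h3 := congrArg (fun q : Ix j => q.1.1.val) h2
        simp [ix] at h3
      · rw [Finset.mem_insert, Finset.mem_singleton]
        intro h2
        rcases h2 with h2 | h2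
        · have h3 := congrArg (fun q : Ix j => q.1.1.val) h2
          simp [ix] at h3
        · have h3 := congrArg (fun q : Ix j => q.1.1.val) h2
          simp [ix] at h3
    calc T.card ≤ 1 * (2 * H + 1) ^ (Fintype.card (Ix j) - J.card) := h1
      _ ≤ n * (2 * H + 1) ^ (Fintype.card (Ix j) - 3) :=
          Nat.mul_le_mul (by omega) (Nat.pow_le_pow_right (by omega) (by omega))

end Pool.Agent.H88.TS
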