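import Pool.Agent.H4.AR.ClassV
import Pool.Agent.H4.AR.Count
import Pool.Agent.H4.AR.L1

/-! # [H88 TS AXP] The auxiliary polynomial for Roth's theorem (one number `th`)

Simplified copy of `H4/AR/AuxP.lean` (`aux_poly`): unknowns `x_e`, `e` in the box `e_j ≤ d_j`; equations: for `i` in the box with `wt d i < m (1/2 - η)` and `io : Fin D`:
`∑_e x_e * mch e i * c^(Dg - |e - i|) * w (|e - i|) io = 0`, `Dg = ∑ d`. Number `≤ D * #(i) ≤ N/2` (`hcount`), entries `≤ 2^Dg B^Dg`. `Int.Matrix.exists_ne_zero_int_vec_norm_le`. The case of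
no equation (`#(i) = 0`) cannot occur if `1/2 - η > 0` (`i = 0`); if `1/2 - η ≤ 0` take `f = 1` (nothing to prove: no `i` with `wt d i < 0`). -/

namespace Pool.Agent.H88.TS

open MvPolynomial H4AR

attribute [local instance] Matrix.seminormedAddCommGroup

/-- exponents of the box as finsupps -/
private noncomputable def ax_t {m : ℕ} (d : Fin m → ℕ) (e : (j : Fin m) → Fin (d j + 1)) : Fin m →₀ ℕ :=
  Finsupp.equivFunOnFinite.symm fun j => (e j : ℕ)

private theorem ax_t_apply {m : ℕ} (d : Fin m → ℕ) (e : (j : Fin m) → Fin (d j + 1)) (j : Fin m) :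
    ax_t d e j = (e j : ℕ) := rfl

private theorem ax_t_inj {m : ℕ} (d : Fin m → ℕ) : Function.Injective (ax_t d) := by
  intro e e' h
  funext j
  have := DFunLike.congr_fun h j
  rw [ax_t_apply, ax_t_apply] at this
  exact Fin.ext this

private theorem ax_box {m : ℕ} (d : Fin m → ℕ) {i : Fin m →₀ ℕ} (h : ∀ j, i j ≤ d j) :
    ∃ e : (j : Fin m) → Fin (d j + 1), ax_t d e = i := by
  refine ⟨fun j => ⟨i j, Nat.lt_succ_of_le (h j)⟩, ?_⟩
  ext j
  rfl

private theorem ax_sum_le {m : ℕ} (d : Fin m → ℕ) (e : (j : Fin m) → Fin (d j + 1)) :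
    ∑ j, ax_t d e j ≤ ∑ j, d j :=
  Finset.sum_le_sum fun j _ => by rw [ax_t_apply]; exact Nat.lt_succ_iff.1 (e j).2

/-- number of the multi-indices of small weight in the box -/
private theorem ax_count {m : ℕ} (d : Fin m → ℕ) (t : ℝ) :
    (Fintype.card {i : (j : Fin m) → Fin (d j + 1) // wt d (ax_t d i) < t} : ℝ) ≤
      (((Fintype.piFinset fun j => Finset.range (d j + 1)).filter fun e : Fin m → ℕ =>
      ∑ j, (e j : ℝ) / (d j : ℝ) < t).card : ℝ) := by
  classical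
  rw [Fintype.card_subtype]
  have h : (Finset.univ.filter fun i : (j : Fin m) → Fin (d j + 1) => wt d (ax_t d i) < t).card ≤
      ((Fintype.piFinset fun j => Finset.range (d j + 1)).filter
      (fun e : Fin m → ℕ => ∑ j, (e j : ℝ) / (d j : ℝ) < t)).card := by
    apply Finset.card_le_card_of_injOn (fun i j => (i j : ℕ))
    · intro i hi
      rw [Finset.mem_coe, Finset.mem_filter] at hi ⊢
      refine ⟨Fintype.mem_piFinset.2 fun j => Finset.mem_range.2 (i j).2, ?_⟩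
      exact hi.2
    · intro i _ i' _ h
      funext j
      exact Fin.ext (congrFun h j)
  exact_mod_cast h

private theorem wt_nonneg {m : ℕ} (d : Fin m → ℕ) (e : Fin m →₀ ℕ) : 0 ≤ wt d e :=
  Finset.sum_nonneg fun _ _ => by positivity

/-- the coefficient of a shift by one number -/
private theorem ax_coeff {m : ℕ} (th : ℝ) (f : MvPolynomial (Fin m) ℤ) (s : Finset (Fin m →₀ ℕ))
    (hs : f.support ⊆ s) (i : Fin m →₀ ℕ) :
    (sh (fun _ => th) (toR f)).coeff i =
      ∑ e ∈ s, ((f.coeff e : ℤ) : ℝ) * (mch e i : ℝ) * th ^ (∑ j, (e j - i j)) := by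
  rw [coeff_sh_eq_sum]
  have hc1 : ∀ e, (toR f).coeff e = ((f.coeff e : ℤ) : ℝ) := by
    intro e; unfold toR; rw [MvPolynomial.coeff_map]; rfl
  rw [Finset.sum_congr rfl fun e _ => by rw [hc1 e, Finset.prod_pow_eq_pow_sum]]
  apply Finset.sum_subset
  · exact (MvPolynomial.support_map_subset _ _).trans hs
  · intro e _ he
    rw [MvPolynomial.notMem_support_iff, hc1] at he
    rw [he]; ring

/-- the equations have a small solution -/
private theorem ax_siegel {α β : Type} [Fintype α] [Fintype β] [DecidableEq α] [DecidableEq β]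
    (A : Matrix α β ℤ) {N K : ℝ} (hN : (Fintype.card β : ℝ) = N)
    (hM : 2 * (Fintype.card α : ℝ) ≤ N) (h0 : 0 < Fintype.card α) (hK : 1 ≤ K) (hA : ∀ i j, |A i j| ≤ K) :
    ∃ t : β → ℤ, t ≠ 0 ∧ Matrix.mulVec A t = 0 ∧ ∀ j, ((|t j| : ℤ) : ℝ) ≤ N * K := by
  have ha : (0 : ℝ) < Fintype.card α := by exact_mod_cast h0
  have hlt : Fintype.card α < Fintype.card β := by
    have : (Fintype.card α : ℝ) < Fintype.card β := by rw [hN]; linarith
    exact_mod_cast this
  obtain ⟨t, ht, hAt, hn⟩ := Int.Matrix.exists_ne_zero_int_vec_norm_le A hlt h0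
  refine ⟨t, ht, hAt, fun j => ?_⟩
  have hnorm : ‖A‖ ≤ K := by
    rw [Matrix.norm_le_iff (by linarith)]
    intro i j
    have := hA i j
    rw [Int.norm_eq_abs]
    exact_mod_cast this
  have h1 : max 1 ‖A‖ ≤ K := max_le hK hnorm
  have hN1 : 1 ≤ N := by
    rw [← hN]
    have : 1 ≤ Fintype.card β := by omega
    exact_mod_cast this
  have hb1 : 1 ≤ (Fintype.card β : ℝ) * max 1 ‖A‖ := by
    have e1 : (1 : ℝ) ≤ Fintype.card β := by rw [hN]; exact hN1
    have e2 : (1 : ℝ) ≤ max 1 ‖A‖ := le_max_left _ _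
    nlinarith
  have hexp : (Fintype.card α : ℝ) / (Fintype.card β - Fintype.card α) ≤ 1 := by
    rw [div_le_one (by rw [hN]; linarith), hN]
    linarith
  have h2 : ‖t j‖ ≤ ‖t‖ := norm_le_pi_norm t j
  calc ((|t j| : ℤ) : ℝ) = ‖t j‖ := by rw [Int.norm_eq_abs]; push_cast; rfl
    _ ≤ ‖t‖ := h2
    _ ≤ ((Fintype.card β : ℝ) * max 1 ‖A‖) ^ ((Fintype.card α : ℝ) / (Fintype.card β - Fintype.card α)) := hn
    _ ≤ ((Fintype.card β : ℝ) * max 1 ‖A‖) ^ (1 : ℝ) := Real.rpow_le_rpow_of_exponent_le hb1 hexp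
    _ = (Fintype.card β : ℝ) * max 1 ‖A‖ := Real.rpow_one _
    _ ≤ N * K := by
        rw [hN]
        exact mul_le_mul_of_nonneg_left h1 (by linarith)

theorem aux (m D : ℕ) (hm : 1 ≤ m) (hD : 1 ≤ D) (η : ℝ) (th : ℝ) (c : ℤ) (hc : c ≠ 0) (B : ℕ) (hB : 1 ≤ B) (hcB : |c| ≤ B)
    (w : ℕ → Fin D → ℤ) (hw : ∀ q, (c : ℝ) ^ q * th ^ q = ∑ i, (w q i : ℝ) * th ^ (i : ℕ))
    (hwB : ∀ q i, |w q i| ≤ (B : ℤ) ^ q) (d : Fin m → ℕ) (hd : ∀ j, 1 ≤ d j)
    (hcount : 2 * (D : ℝ) * (((Fintype.piFinset fun j => Finset.range (d j + 1)).filter fun e : Fin m → ℕ =>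
      ∑ j, (e j : ℝ) / (d j : ℝ) < m * (1 / 2 - η)).card : ℝ) ≤ ∏ j, ((d j : ℝ) + 1)) :
    ∃ f : MvPolynomial (Fin m) ℤ, f ≠ 0 ∧ (∀ j, f.degreeOf j ≤ d j) ∧ l1 f ≤ (16 * B : ℝ) ^ (∑ j, d j) ∧
      ∀ i : Fin m →₀ ℕ, wt d i < m * (1 / 2 - η) → (sh (fun _ => th) (toR f)).coeff i = 0 := by
  classical
  have hB1 : (1 : ℝ) ≤ B := by exact_mod_cast hB
  set u : ℝ := m * (1 / 2 - η) with hu
  rcases le_or_gt u 0 with hu0 | hu0
  · refine ⟨1, one_ne_zero, fun j => ?_, ?_, fun i hi => ?_⟩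
    · rw [← MvPolynomial.C_1, MvPolynomial.degreeOf_C]
      exact Nat.zero_le _
    · rw [l1_one]
      exact one_le_pow₀ (by linarith)
    · exact absurd (wt_nonneg d i) (by linarith)
  set Dg := ∑ j, d j with hDg
  set ι := {i : (j : Fin m) → Fin (d j + 1) // wt d (ax_t d i) < u} with hι
  set sg : (Fin m →₀ ℕ) → (Fin m →₀ ℕ) → ℕ := fun e i => ∑ j, (e j - i j) with hsg
  have hsgle : ∀ (e : (j : Fin m) → Fin (d j + 1)) (i : Fin m →₀ ℕ), sg (ax_t d e) i ≤ Dg := by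
    intro e i
    refine le_trans (Finset.sum_le_sum fun j _ => Nat.sub_le _ _) (ax_sum_le d e)
  set A : Matrix (ι × Fin D) ((j : Fin m) → Fin (d j + 1)) ℤ :=
    fun q e => (mch (ax_t d e) (ax_t d q.1.1) : ℤ) * (c ^ (Dg - sg (ax_t d e) (ax_t d q.1.1)) *
      w (sg (ax_t d e) (ax_t d q.1.1)) q.2) with hA
  set N : ℝ := ∏ j, ((d j : ℝ) + 1) with hN
  have hNpos : 0 < N := Finset.prod_pos fun j _ => by positivity
  have hcardβ : (Fintype.card ((j : Fin m) → Fin (d j + 1)) : ℝ) = N := by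
    rw [Fintype.card_pi, hN]
    push_cast
    refine Finset.prod_congr rfl fun j _ => ?_
    rw [Fintype.card_fin]
    push_cast
    ring
  have hcardα : (Fintype.card (ι × Fin D) : ℝ) = (Fintype.card ι : ℝ) * D := by
    rw [Fintype.card_prod, Fintype.card_fin]
    push_cast
    ring
  have hcnt := ax_count d u
  have hM : 2 * (Fintype.card (ι × Fin D) : ℝ) ≤ N := by
    rw [hcardα]
    refine le_trans ?_ hcount
    have h1 : (0 : ℝ) ≤ D := by positivity
    have h2 := mul_le_mul_of_nonneg_left hcnt h1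
    linarith
  have h0 : 0 < Fintype.card (ι × Fin D) := by
    rw [Fintype.card_pos_iff]
    refine ⟨⟨⟨fun j => 0, ?_⟩, ⟨0, hD⟩⟩⟩
    have h1 : wt d (ax_t d fun j => 0) = 0 := by
      unfold wt
      refine Finset.sum_eq_zero fun j _ => ?_
      rw [ax_t_apply]; simp
    rw [h1]
    exact hu0
  have hAb : ∀ q e, ((|A q e| : ℤ) : ℝ) ≤ (2 * B : ℝ) ^ Dg := by
    intro q e
    rw [hA]
    simp only
    have e1 : ((mch (ax_t d e) (ax_t d q.1.1) : ℕ) : ℝ) ≤ 2 ^ Dg := by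
      have h1 : mch (ax_t d e) (ax_t d q.1.1) ≤ 2 ^ Dg :=
        (mch_le _ _).trans (Nat.pow_le_pow_right (by norm_num) (ax_sum_le d e))
      exact_mod_cast h1
    have e2 : |(c : ℝ)| ≤ B := by exact_mod_cast hcB
    have e3 : |((w (sg (ax_t d e) (ax_t d q.1.1)) q.2 : ℤ) : ℝ)| ≤ (B : ℝ) ^ (sg (ax_t d e) (ax_t d q.1.1)) := by
      exact_mod_cast hwB (sg (ax_t d e) (ax_t d q.1.1)) q.2
    have e4 : |(c : ℝ)| ^ (Dg - sg (ax_t d e) (ax_t d q.1.1)) ≤ (B : ℝ) ^ (Dg - sg (ax_t d e) (ax_t d q.1.1)) :=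
      pow_le_pow_left₀ (abs_nonneg _) e2 _
    have e5 : (B : ℝ) ^ (Dg - sg (ax_t d e) (ax_t d q.1.1)) * (B : ℝ) ^ (sg (ax_t d e) (ax_t d q.1.1)) = (B : ℝ) ^ Dg := by
      rw [← pow_add, Nat.sub_add_cancel (hsgle e _)]
    rw [Int.cast_abs]
    push_cast
    rw [abs_mul, abs_mul, abs_pow, Nat.abs_cast, mul_pow, ← e5]
    gcongr
  obtain ⟨x, hx0, hAx, hxb⟩ := ax_siegel A hcardβ hM h0 (K := (2 * B : ℝ) ^ Dg) (one_le_pow₀ (by linarith))
    hAb
  -- the polynomial
  set f : MvPolynomial (Fin m) ℤ := ∑ e, monomial (ax_t d e) (x e) with hf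
  have hcoef : ∀ e, f.coeff (ax_t d e) = x e := by
    intro e
    rw [hf, MvPolynomial.coeff_sum]
    rw [Finset.sum_eq_single e]
    · rw [MvPolynomial.coeff_monomial, if_pos rfl]
    · intro e' _ hne
      rw [MvPolynomial.coeff_monomial, if_neg fun h => hne (ax_t_inj d h)]
    · intro h; exact absurd (Finset.mem_univ e) h
  have hsupp : f.support ⊆ Finset.univ.image (ax_t d) := by
    intro i hi
    rw [MvPolynomial.mem_support_iff, hf, MvPolynomial.coeff_sum] at hi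
    obtain ⟨e, _, he⟩ := Finset.exists_ne_zero_of_sum_ne_zero hi
    rw [MvPolynomial.coeff_monomial] at he
    by_cases h : ax_t d e = i
    · exact Finset.mem_image.2 ⟨e, Finset.mem_univ e, h⟩
    · rw [if_neg h] at he; exact absurd rfl he
  have hsuppd : ∀ i ∈ f.support, ∀ j, i j ≤ d j := by
    intro i hi j
    obtain ⟨e, _, rfl⟩ := Finset.mem_image.1 (hsupp hi)
    rw [ax_t_apply]
    exact Nat.lt_succ_iff.1 (e j).2
  refine ⟨f, ?_, ?_, ?_, ?_⟩
  · intro h
    apply hx0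
    funext e
    rw [← hcoef e, h]
    simp
  · intro j
    rw [MvPolynomial.degreeOf_le_iff]
    exact fun i hi => hsuppd i hi j
  · rw [l1_eq_sum f _ hsupp, Finset.sum_image fun e _ e' _ h => ax_t_inj d h]
    have hNT : N ≤ (2 : ℝ) ^ Dg := by
      rw [hN, hDg, ← Finset.prod_pow_eq_pow_sum]
      refine Finset.prod_le_prod (fun j _ => by positivity) fun j _ => ?_
      have h1 : d j + 1 ≤ 2 ^ d j := Nat.lt_two_pow_self
      calc (d j : ℝ) + 1 = ((d j + 1 : ℕ) : ℝ) := by push_cast; ring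
        _ ≤ ((2 ^ d j : ℕ) : ℝ) := by exact_mod_cast h1
        _ = (2 : ℝ) ^ d j := by push_cast; ring
    calc ∑ e, |((f.coeff (ax_t d e) : ℤ) : ℝ)| ≤ ∑ e : (j : Fin m) → Fin (d j + 1), N * (2 * B : ℝ) ^ Dg := by
          refine Finset.sum_le_sum fun e _ => ?_
          rw [hcoef e, ← Int.cast_abs]
          exact hxb e
      _ = N * (N * (2 * B : ℝ) ^ Dg) := by
          rw [Finset.sum_const, Finset.card_univ, nsmul_eq_mul, hcardβ]
      _ ≤ (2 : ℝ) ^ Dg * ((2 : ℝ) ^ Dg * (2 * B : ℝ) ^ Dg) := by gcongr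
      _ = (8 * B : ℝ) ^ Dg := by
          rw [← mul_pow, ← mul_pow]; congr 1; ring
      _ ≤ (16 * B : ℝ) ^ Dg := by
          refine pow_le_pow_left₀ (by positivity) ?_ _
          linarith
  · intro i hi
    by_cases hbox : ∀ j, i j ≤ d j
    · obtain ⟨i0, hi0⟩ := ax_box d hbox
      have hw1 : wt d (ax_t d i0) < u := by rw [hi0]; exact hi
      rw [ax_coeff th f _ hsupp i, Finset.sum_image fun e _ e' _ h => ax_t_inj d h]
      have hcD : (c : ℝ) ^ Dg ≠ 0 := pow_ne_zero _ (by exact_mod_cast hc)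
      apply mul_left_cancel₀ hcD
      rw [mul_zero, Finset.mul_sum]
      have h1 : ∀ e : (j : Fin m) → Fin (d j + 1),
          (c : ℝ) ^ Dg * (((f.coeff (ax_t d e) : ℤ) : ℝ) * (mch (ax_t d e) i : ℝ) * th ^ (∑ j, (ax_t d e j - i j))) =
          ∑ io : Fin D, th ^ (io : ℕ) * ((A (⟨i0, hw1⟩, io) e * x e : ℤ) : ℝ) := by
        intro e
        have e1 : (c : ℝ) ^ Dg = (c : ℝ) ^ (Dg - sg (ax_t d e) i) * (c : ℝ) ^ (sg (ax_t d e) i) := by
          rw [← pow_add, Nat.sub_add_cancel (hsgle e _)]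
        have e2 := hw (sg (ax_t d e) i)
        have e3 : (∑ j, (ax_t d e j - i j)) = sg (ax_t d e) i := rfl
        rw [hcoef e, e3]
        calc (c : ℝ) ^ Dg * ((x e : ℝ) * (mch (ax_t d e) i : ℝ) * th ^ (sg (ax_t d e) i))
            = (x e : ℝ) * (mch (ax_t d e) i : ℝ) * (c : ℝ) ^ (Dg - sg (ax_t d e) i) *
              ((c : ℝ) ^ (sg (ax_t d e) i) * th ^ (sg (ax_t d e) i)) := by rw [e1]; ring
          _ = _ := by
              rw [e2, Finset.mul_sum]
              refine Finset.sum_congr rfl fun io _ => ?_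
              rw [hA]
              simp only
              rw [hi0]
              push_cast
              ring
      rw [Finset.sum_congr rfl fun e _ => h1 e, Finset.sum_comm]
      refine Finset.sum_eq_zero fun io _ => ?_
      rw [← Finset.mul_sum, ← Int.cast_sum]
      have heq := congrFun hAx (⟨i0, hw1⟩, io)
      rw [Matrix.mulVec, dotProduct] at heq
      rw [heq]
      simp
    · rw [coeff_sh_eq_sum]
      refine Finset.sum_eq_zero fun e he => ?_
      have h1 : ¬ i ≤ e := by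
        intro h
        apply hbox
        intro j
        have he' : e ∈ f.support := MvPolynomial.support_map_subset _ _ he
        exact (h j).trans (hsuppd e he' j)
      rw [mch_eq_zero h1]
      simp

end Pool.Agent.H88.TS
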