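import Pool.Agent.H88.A2.Ar
import Pool.Agent.H8.AA.Box

/-! # [H88 TS DEF] THEOREM TS (how many curves of a family with fixed upper part have an integer point), MP_821da1_nt -/

namespace Pool.Agent.H88.TS

open Finset MvPolynomial Pool.Agent.H8.AA Pool.Agent.H88.A2

/-- no line has contact of order `≥ 3` with `F = 0` at a real point at infinity -/
def Flx (n : ℕ) (F : MvPolynomial (Fin 2) ℤ) : Prop :=
  ∀ θ β : ℝ, n - 2 ≤ (MvPolynomial.aeval ![Polynomial.X, Polynomial.C θ * Polynomial.X + Polynomial.C β] F :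
    Polynomial ℝ).natDegree

/-- the hypotheses on the fixed part -/
structure Hy (n j : ℕ) (G : MvPolynomial (Fin 2) ℤ) : Prop where
  hn : 5 ≤ n
  hj : 3 ≤ j
  hjn : j < n
  deg : G.totalDegree ≤ n
  irr : Irreducible (MvPolynomial.map (Int.castRingHom ℚ) (MvPolynomial.homogeneousComponent n G))
  flex : j + 3 ≤ n → Flx n G

end Pool.Agent.H88.TS
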